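import Pool.Agent.H226.OF.Param
import Pool.Agent.H226.RT.Lp
import Pool.Graph.R_pool_sql_team_seeded_64922ed1.X96.DM.One
import Pool.Graph.R_pool_sql_team_seeded_64922ed1.X96.HT.Crit2

/-!
The Navier-Stokes equations in physical space.
-/

open MeasureTheory Set Filter Topology
open scoped ENNReal ContDiff
open H459R3.NS Pool.Agent.X96.HT Pool.Agent.X96.DM

namespace Pool.Agent.H226.SW

variable {U : K3 → C3}

/-- all triads with the coefficient one -/
def one1 : Finset K3 → ℝ := fun _ => 1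

lemma one1_le (τ : Finset K3) : |one1 τ| ≤ 1 := by unfold one1; simp

lemma rwt_one1 : rwt one1 = fun _ _ _ => 1 := rfl

/-- a smooth solution with mean zero in terms of the Fourier coefficients -/
theorem isSolD_of_isSol {ν T : ℝ} {u : ℝ → V → V} {P : ℝ → V → ℝ} (h : IsSol ν T u P)
    (h0 : ∀ i, ∫ x in cube, u 0 x i = 0) :
    IsSolD (rwt one1) (fun k => ν * (2 * Real.pi) ^ 2 * kn k ^ 2) {0}ᶜ (Ico 0 T) u := by
  have hW := isSolW_one h h0
  rw [rwt_one1]
  refine ⟨h.smooth_u, h.per_u, h.divfree, fun t ht k hk => ?_, fun t ht ht0 k _ i => ?_⟩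
  · have hk0 : k = 0 := by simpa using hk
    subst hk0
    have hcont : ∀ i, ContinuousOn (fun s => co (u s) 0 i) (Ico 0 T) := fun i =>
      continuousOn_fr (f := fun s y => u s y i) (h.smooth_c i) 0
    have hstart : co (u 0) 0 = 0 := by
      funext i
      unfold co fr fc
      have e : ∀ x : V, ee (-0) x * ((u 0 x i : ℝ) : ℂ) = ((u 0 x i : ℝ) : ℂ) := fun x => by
        rw [neg_zero, ee_zero, one_mul]
      simp_rw [e]
      have e2 : ∫ x in cube, ((u 0 x i : ℝ) : ℂ) = ((∫ x in cube, u 0 x i : ℝ) : ℂ) :=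
        integral_complex_ofReal
      rw [e2, h0]
      simp
    funext i
    have h1 : co (u t) 0 i = co (u 0) 0 i := by
      refine eq_start (hcont i) (fun s hs => ?_) ht
      refine (hW.eqn s ⟨hs.1.le, hs.2⟩ hs.1 0 i).congr_deriv ?_
      have hn0 : nonl (fun _ _ _ => 1) (co (u s)) 0 i = 0 := by
        unfold nonl bil
        simp [hel_at_zero]
      rw [hn0, kn_zero]
      simp
    rw [h1, hstart]
  · refine (hW.eqn t ht ht0 k i).congr_deriv ?_
    push_cast
    ring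

/-- a solution started at a later time -/
theorem isSol_shift {ν T : ℝ} {u : ℝ → V → V} {P : ℝ → V → ℝ} (h : IsSol ν T u P) {t₀ : ℝ}
    (ht₀ : t₀ ∈ Ico 0 T) : IsSol ν (T - t₀) (fun t => u (t₀ + t)) (fun t => P (t₀ + t)) := by
  have hI : ∀ t ∈ Ico 0 (T - t₀), t₀ + t ∈ Ico 0 T := fun t ht =>
    ⟨by linarith [ht.1, ht₀.1], by linarith [ht.2]⟩
  have hs : ContDiff ℝ ∞ fun z : ℝ × V => (t₀ + z.1, z.2) :=
    (contDiff_const.add contDiff_fst).prodMk contDiff_snd
  have hm : MapsTo (fun z : ℝ × V => (t₀ + z.1, z.2)) (Ico 0 (T - t₀) ×ˢ univ)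
      (Ico 0 T ×ˢ univ) := fun z hz => ⟨hI z.1 hz.1, mem_univ _⟩
  refine ⟨h.smooth_u.comp hs.contDiffOn hm, h.smooth_p.comp hs.contDiffOn hm,
    fun t ht => h.per_u _ (hI t ht), fun t ht => h.per_p _ (hI t ht),
    fun t ht => h.divfree _ (hI t ht), fun t ht x i => ?_⟩
  have h1 := h.momentum (t₀ + t) ⟨by linarith [ht.1, ht₀.1], by linarith [ht.2]⟩ x i
  rw [← h1, deriv_comp_const_add (f := fun s => u s x i)]

/-- the mean stays zero -/
theorem mean_zero {ν T : ℝ} {u : ℝ → V → V} {P : ℝ → V → ℝ} (h : IsSol ν T u P)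
    (h0 : ∀ i, ∫ x in cube, u 0 x i = 0) {t₀ : ℝ} (ht₀ : t₀ ∈ Ico 0 T) (i : Fin 3) :
    ∫ x in cube, u t₀ x i = 0 := by
  have h1 := congrFun ((isSolD_of_isSol h h0).supp t₀ ht₀ 0 (by simp)) i
  unfold co fr fc at h1
  have e : ∀ x : V, ee (-0) x * ((u t₀ x i : ℝ) : ℂ) = ((u t₀ x i : ℝ) : ℂ) := fun x => by
    rw [neg_zero, ee_zero, one_mul]
  simp_rw [e] at h1
  have e2 : ∫ x in cube, ((u t₀ x i : ℝ) : ℂ) = ((∫ x in cube, u t₀ x i : ℝ) : ℂ) :=
    integral_complex_ofReal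
  rw [e2, Pi.zero_apply] at h1
  exact_mod_cast h1

/-- translation in time -/
lemma shift_integral {g : ℝ → ℝ} {t₀ T : ℝ} (hg : IntegrableOn g (Ioo t₀ T)) :
    IntegrableOn (fun t => g (t₀ + t)) (Ioo 0 (T - t₀)) ∧
      ∫ t in Ioo 0 (T - t₀), g (t₀ + t) = ∫ t in Ioo t₀ T, g t := by
  have hpre : (fun t => t₀ + t) ⁻¹' Ioo t₀ T = Ioo 0 (T - t₀) := by
    ext t
    simp only [mem_preimage, mem_Ioo]
    constructor
    · rintro ⟨h1, h2⟩
      exact ⟨by linarith, by linarith⟩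
    · rintro ⟨h1, h2⟩
      exact ⟨by linarith, by linarith⟩
  have hmp : MeasurePreserving (fun t : ℝ => t₀ + t) volume volume :=
    measurePreserving_add_left volume t₀
  have hme : MeasurableEmbedding (fun t : ℝ => t₀ + t) := measurableEmbedding_addLeft t₀
  rw [← hpre]
  exact ⟨(hmp.integrableOn_comp_preimage hme).2 hg, hmp.setIntegral_preimage_emb hme g _⟩

lemma conj_lry {k : K3} {a b : C3} (ha : dp (kc k) a = 0) :
    ∑ i, (starRingEnd ℂ) (a i) * lry k b i = ∑ i, (starRingEnd ℂ) (a i) * b i := by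
  have h1 : ∑ i, (starRingEnd ℂ) (a i) * (kc k i) = 0 := by
    have := congrArg (starRingEnd ℂ) ha
    unfold dp kc at this
    simp only [map_add, map_mul, map_intCast, map_zero] at this
    unfold kc
    rw [Fin.sum_univ_three]
    linear_combination this
  have h2 : ∀ i, (starRingEnd ℂ) (a i) * lry k b i = (starRingEnd ℂ) (a i) * b i
      - (dp (kc k) b / (kn k : ℂ) ^ 2) * ((starRingEnd ℂ) (a i) * kc k i) := by
    intro i
    unfold lry
    simp only [Pi.sub_apply, Pi.smul_apply, smul_eq_mul]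
    ring
  rw [Finset.sum_congr rfl fun i _ => h2 i, Finset.sum_sub_distrib, ← Finset.mul_sum, h1, mul_zero,
    sub_zero]

lemma lp_real {L : ℝ} (hreal : ∀ k, U (-k) = cj (U k)) (k : K3) :
    lp L U (-k) = cj (lp L U k) := by
  unfold lp
  rw [kn_neg]
  split_ifs
  · exact hreal k
  · funext i; simp [cj]

lemma hp_lp_zero (lam L : ℝ) (h : U 0 = 0) : hp lam (lp L U) 0 = 0 := by
  unfold hp lp
  rw [h]
  simp

/-- the flux in terms of the convection term -/
theorem flux_eq (hU : RapV U) (hdiv : ∀ k, dp (kc k) (U k) = 0) (h0 : U 0 = 0)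
    (hreal : ∀ k, U (-k) = cj (U k)) (n : ℕ) :
    ∑' k : K3, (if n ≤ nk k then (∑ i, (starRingEnd ℂ) (U k i) * cvt one1 U k i).re else 0)
      = 2 * Real.pi * (T3s (fw (rwt one1) (ix n) U)).re := by
  have hη := isWeight_rwt one1_le
  have hp := pair_rap hη hU hdiv hreal (ix_neg n) (ix_pg n)
  have hre := Complex.hasSum_re hp
  have e1 : (2 * (Real.pi : ℂ) * T3s (fw (rwt one1) (ix n) U)).re
      = 2 * Real.pi * (T3s (fw (rwt one1) (ix n) U)).re := by
    have : (2 * (Real.pi : ℂ)) = ((2 * Real.pi : ℝ) : ℂ) := by push_cast; ring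
    rw [this, Complex.re_ofReal_mul]
  rw [← e1, ← hre.tsum_eq]
  refine tsum_congr fun k => ?_
  rw [Complex.re_ofReal_mul]
  by_cases hk : k = 0
  · subst hk
    have e2 : ∀ W : K3 → C3, (∑ i, (starRingEnd ℂ) (U 0 i) * W 0 i).re = 0 := by
      intro W
      rw [h0]
      simp
    rw [e2, e2, mul_zero]
    split_ifs <;> rfl
  · rw [nonl_rwt one1_le hdiv h0 (RapV.summable hU) (by simpa using hU 1) hk, conj_lry (hdiv k)]
    unfold ix
    split_ifs
    · rw [one_mul]
    · rw [zero_mul]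

end Pool.Agent.H226.SW
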