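import Pool.Agent.H226.OF.Top

/-!
The local triads: the ramp as a sum of spheres.
-/

open MeasureTheory Set Filter Topology
open scoped ENNReal
open H459R3.NS Pool.Agent.X96.HT Pool.Agent.X96.DM

namespace Pool.Agent.H226.SW

variable {η : Md → Md → Md → ℝ} {U : K3 → C3} {k p q : K3} {H : ℝ} {N : ℕ} {lam K M L : ℝ}
  {B : Finset ℕ} {a S : ℝ}

/-- the indicator of the frequencies with `n ≤ |k|²` -/
noncomputable def ix (n : ℕ) (k : K3) : ℝ := if n ≤ nk k then 1 else 0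

lemma ix_nonneg (n : ℕ) (k : K3) : 0 ≤ ix n k := by unfold ix; split_ifs <;> norm_num

lemma ix_le (n : ℕ) (k : K3) : ix n k ≤ 1 := by unfold ix; split_ifs <;> norm_num

lemma ix_neg (n : ℕ) (k : K3) : ix n (-k) = ix n k := by unfold ix; rw [nk_neg]

lemma ix_pg (n : ℕ) : PG (ix n) := PG.of_le (C := 1) fun k => by
  rw [abs_of_nonneg (ix_nonneg n k)]; exact ix_le n k

/-- the jumps of the ramp -/
noncomputable def dl (B : Finset ℕ) (a : ℝ) (n : ℕ) : ℝ := a ^ be B (n + 1) - a ^ be B n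

lemma dl_nonneg (ha : 1 ≤ a) (n : ℕ) : 0 ≤ dl B a n :=
  sub_nonneg.2 (pow_le_pow_right₀ ha (be_mono B (Nat.le_succ n)))

lemma dl_zero {n : ℕ} (h : n + 1 ∉ B) : dl B a n = 0 := by
  have e : B.filter (fun x => x ≤ n + 1) = B.filter fun x => x ≤ n := by
    ext x
    rw [Finset.mem_filter, Finset.mem_filter]
    constructor
    · rintro ⟨h1, h2⟩
      refine ⟨h1, ?_⟩
      rcases h2.lt_or_eq with h3 | h3
      · omega
      · exact absurd (h3 ▸ h1) h
    · rintro ⟨h1, h2⟩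
      exact ⟨h1, by omega⟩
  unfold dl be
  rw [e, sub_self]

lemma tele (ρ : ℕ → ℝ) (m b : ℕ) :
    ∑ n ∈ Finset.range b, (ρ (n + 1) - ρ n) * (if n + 1 ≤ m then 1 else 0) = ρ (min m b) - ρ 0 := by
  induction b with
  | zero => simp
  | succ b ih =>
    rw [Finset.sum_range_succ, ih]
    rcases le_or_gt (b + 1) m with h | h
    · rw [if_pos h, min_eq_right (by omega), min_eq_right (by omega)]
      ring
    · rw [if_neg (by omega), min_eq_left (by omega), min_eq_left (by omega)]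
      ring

lemma rb_cake (hB1 : ∀ n ∈ B, N ^ 2 < n) (hB2 : ∀ n ∈ B, n ≤ 4 * N ^ 2) (k : K3) :
    rb B a k = 1 + ∑ n ∈ Finset.range (4 * N ^ 2), dl B a n * ix (n + 1) k := by
  have h1 := tele (fun n => a ^ be B n) (nk k) (4 * N ^ 2)
  have h2 : be B 0 = 0 := be_zero fun n hn => (Nat.zero_le _).trans_lt (hB1 n hn)
  have h3 : be B (min (nk k) (4 * N ^ 2)) = be B (nk k) := by
    rcases le_total (nk k) (4 * N ^ 2) with h | h
    · rw [min_eq_left h]
    · rw [min_eq_right h, be_all hB2, be_all fun n hn => (hB2 n hn).trans h]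
  simp only [h2, pow_zero, h3] at h1
  unfold rb dl ix
  rw [h1]
  ring

lemma sum_dl (ha : 1 ≤ a) : ∑ n ∈ Finset.range (4 * N ^ 2), dl B a n ≤ a ^ B.card := by
  unfold dl
  rw [Finset.sum_range_sub (fun n => a ^ be B n)]
  have h1 : a ^ be B (4 * N ^ 2) ≤ a ^ B.card := pow_le_pow_right₀ ha (be_le _ _)
  have h2 : 0 ≤ a ^ be B 0 := by positivity
  linarith

/-- The production of the ramp by the local triads, if the flux through the spheres of `B`
is controlled. -/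
theorem near_part (hη : IsWeight η) (hU : RapV U) {V : K3 → C3} (hV : RapV V)
    (hVd : ∀ k, dp (kc k) (V k) = 0) (ha : 1 ≤ a) (hB1 : ∀ n ∈ B, N ^ 2 < n)
    (hB2 : ∀ n ∈ B, n ≤ 4 * N ^ 2) {c : ℝ} {g : ℕ → ℝ} (hc : 0 ≤ c)
    (hflux : ∀ n ∈ B, -(2 * Real.pi * (T3s (fw η (ix n) V)).re)
      ≤ c * nt (fun k => ix n k * kn k ^ 2) U + g n) :
    -(2 * Real.pi * (T3s (fw η (rb B a) V)).re)
      ≤ c * nt (fun k => rb B a k * kn k ^ 2) U
        + ∑ n ∈ Finset.range (4 * N ^ 2), dl B a n * g (n + 1) := by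
  obtain ⟨H, hH⟩ := hη.bdd
  have hΔ0 : ∀ n, 0 ≤ dl B a n := fun n => dl_nonneg ha n
  have e1 : rb B a = fun k => 1 + ∑ n ∈ Finset.range (4 * N ^ 2), dl B a n * ix (n + 1) k := by
    funext k; exact rb_cake hB1 hB2 k
  have pgΔ : ∀ n ∈ Finset.range (4 * N ^ 2), PG fun k => dl B a n * ix (n + 1) k := fun n _ =>
    PG.of_le (C := dl B a n) fun k => by
      rw [abs_of_nonneg (mul_nonneg (hΔ0 n) (ix_nonneg _ k))]
      exact mul_le_of_le_one_right (hΔ0 n) (ix_le _ k)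
  have pg1 : PG fun _ : K3 => (1 : ℝ) := PG.of_le (C := 1) fun k => by simp
  have e2 : T3s (fw η (rb B a) V) = ∑ n ∈ Finset.range (4 * N ^ 2), (dl B a n : ℂ)
      * T3s (fw η (ix (n + 1)) V) := by
    rw [e1, T3s_add_w hH hV hVd pg1 (PG.sum _ pgΔ), T3s_one hη hV hVd, zero_add,
      T3s_sum_w hH hV hVd _ pgΔ]
    exact Finset.sum_congr rfl fun n _ => T3s_smul_w _ _
  have e3 : -(2 * Real.pi * (T3s (fw η (rb B a) V)).re) = ∑ n ∈ Finset.range (4 * N ^ 2),
      dl B a n * -(2 * Real.pi * (T3s (fw η (ix (n + 1)) V)).re) := by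
    rw [e2, Complex.re_sum, Finset.mul_sum, ← Finset.sum_neg_distrib]
    refine Finset.sum_congr rfl fun n _ => ?_
    rw [Complex.re_ofReal_mul]
    ring
  have h1 : ∀ n ∈ Finset.range (4 * N ^ 2),
      dl B a n * -(2 * Real.pi * (T3s (fw η (ix (n + 1)) V)).re)
      ≤ dl B a n * (c * nt (fun k => ix (n + 1) k * kn k ^ 2) U + g (n + 1)) := by
    intro n _
    by_cases h2 : n + 1 ∈ B
    · exact mul_le_mul_of_nonneg_left (hflux _ h2) (hΔ0 n)
    · rw [dl_zero h2]; simp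
  rw [e3]
  refine (Finset.sum_le_sum h1).trans ?_
  have sI : ∀ n, Summable fun k => dl B a n * (ix (n + 1) k * kn k ^ 2 * sq2 U k) := fun n =>
    (((ix_pg (n + 1)).mul_kn 2).smq hU).mul_left _
  have h4 : ∑ n ∈ Finset.range (4 * N ^ 2), dl B a n * nt (fun k => ix (n + 1) k * kn k ^ 2) U
      ≤ nt (fun k => rb B a k * kn k ^ 2) U := by
    have e4 : ∑ n ∈ Finset.range (4 * N ^ 2), dl B a n * nt (fun k => ix (n + 1) k * kn k ^ 2) U
        = ∑' k, ∑ n ∈ Finset.range (4 * N ^ 2),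
          dl B a n * (ix (n + 1) k * kn k ^ 2 * sq2 U k) := by
      rw [Summable.tsum_finsetSum fun n _ => sI n]
      refine Finset.sum_congr rfl fun n _ => ?_
      unfold nt
      rw [tsum_mul_left]
    rw [e4]
    unfold nt
    refine Summable.tsum_le_tsum (fun k => ?_) (summable_sum fun n _ => sI n)
      (((rb_pg ha).mul_kn 2).smq hU)
    have e5 : ∑ n ∈ Finset.range (4 * N ^ 2), dl B a n * (ix (n + 1) k * kn k ^ 2 * sq2 U k)
        = (∑ n ∈ Finset.range (4 * N ^ 2), dl B a n * ix (n + 1) k) * (kn k ^ 2 * sq2 U k) := by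
      rw [Finset.sum_mul]
      exact Finset.sum_congr rfl fun n _ => by ring
    have e6 : ∑ n ∈ Finset.range (4 * N ^ 2), dl B a n * ix (n + 1) k = rb B a k - 1 := by
      rw [rb_cake hB1 hB2 k]; ring
    rw [e5, e6]
    have h5 := sq2_nonneg U k
    have h6 : 0 ≤ kn k ^ 2 * sq2 U k := by positivity
    nlinarith
  calc ∑ n ∈ Finset.range (4 * N ^ 2), dl B a n
        * (c * nt (fun k => ix (n + 1) k * kn k ^ 2) U + g (n + 1))
      = c * ∑ n ∈ Finset.range (4 * N ^ 2), dl B a n * nt (fun k => ix (n + 1) k * kn k ^ 2) U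
        + ∑ n ∈ Finset.range (4 * N ^ 2), dl B a n * g (n + 1) := by
        rw [Finset.mul_sum, ← Finset.sum_add_distrib]
        exact Finset.sum_congr rfl fun n _ => by ring
    _ ≤ _ := by gcongr

/-- The main inequality. -/
theorem main_ineq (hη : IsWeight η) (hH : ∀ a b c, |η a b c| ≤ H) (hU : RapV U)
    (hdiv : ∀ k, dp (kc k) (U k) = 0) (hN : 0 < N) (ha : 1 ≤ a) (hB1 : ∀ n ∈ B, N ^ 2 < n)
    (hB2 : ∀ n ∈ B, n ≤ 4 * N ^ 2) (hS1 : 1 ≤ S) (hS : 4 * N ^ 2 * (a - 1) ≤ S)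
    (hK : 4 * N ≤ K) (hL : 4 * N ≤ L) (hl : S * (lam / N) ≤ 1 / 2) {E F δ c ν' : ℝ} {g : ℕ → ℝ}
    (hδ : 0 ≤ δ) (hc : 0 ≤ c) (hν : 0 ≤ ν')
    (hE : nt (fun _ => 1) U ≤ E) (hF : nt (Wk B a K) U ≤ F)
    (h1 : 8748 * H * (Real.sqrt (27 * (2 * N) ^ 5) * Real.sqrt E) ≤ δ / 2 * (K / 2) ^ 2)
    (h2 : 8748 * H * (Real.sqrt (27 * (K ^ 2 / a ^ B.card)) * Real.sqrt F)
      ≤ δ / 2 * Real.sqrt (K / 2))
    (h3 : 17496 * H * S / N ^ 2 * (Real.sqrt (27 * lam ^ 5) * Real.sqrt E) ≤ δ)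
    (h4 : 8748 * H * (Real.sqrt (27 * (2 * N) ^ 5) * Real.sqrt E) / L ^ 2 ≤ δ)
    (hδν : 6 * Real.pi * δ ≤ (1 - c) * ν')
    (hflux : ∀ n ∈ B, -(2 * Real.pi * (T3s (fw η (ix n) (hp lam (lp L U)))).re)
      ≤ c * (ν' * nt (fun k => ix n k * kn k ^ 2) U) + g n) :
    -(2 * (ν' * Zd B a K U)) - 4 * Real.pi * (T3s (fw η (Wk B a K) U)).re
      ≤ 2 * ∑ n ∈ Finset.range (4 * N ^ 2), dl B a n * g (n + 1) := by
  have hN' : (1 : ℝ) ≤ N := by exact_mod_cast hN
  have hK1 : 1 ≤ K := by linarith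
  have hpi := Real.pi_pos
  have hH0 : 0 ≤ H := (abs_nonneg _).trans (hH (0, true) (0, true) (0, true))
  have hZ : 0 ≤ Zd B a K U := Zd_nonneg ha
  have hZ' : Zd B a K (lp L U) ≤ Zd B a K U :=
    nt_lp_le hU ((Wk_pg ha hK1).mul_kn 2) fun k => by
      have := zero_le_one.trans (Wk_ge (B := B) (K := K) ha k)
      positivity
  have hE' : nt (fun _ => 1) (lp L U) ≤ E :=
    (nt_lp_le hU (PG.of_le (C := 1) fun k => by simp) fun k => zero_le_one).trans hE
  have a1 := far_real (K := K) hη hH (lp_rap (L := L) hU) (lp_div hdiv) hN ha hB1 hB2 hS1 hS hK1 hl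
    hE'
  have a2 := tail_real hη hH hU hdiv hN ha hB2 hK hδ hE hF h1 h2
  have a5 := top_real (K := K) hη hH hU hdiv hN ha hB2 hK1 hL hE
  have a3 := near_part (g := g) hη hU (hp_rap (lam := lam) (lp_rap (L := L) hU))
    (hp_div (lp_div hdiv)) ha hB1 hB2 (mul_nonneg hc hν) fun n hn => by
      have := hflux n hn
      rwa [← mul_assoc] at this
  set V := hp lam (lp L U) with hV
  have e : T3s (fw η (Wk B a K) U) = T3s (fw η (rb B a) V)
      + (T3s (fw η (rb B a) (lp L U)) - T3s (fw η (rb B a) V))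
      + (T3s (fw η (rb B a) U) - T3s (fw η (rb B a) (lp L U)))
      + T3s (fw η (tl K (a ^ B.card)) U) := by
    have : T3s (fw η (Wk B a K) U) = T3s (fw η (rb B a) U) + T3s (fw η (tl K (a ^ B.card)) U) :=
      T3s_add_w hH hU hdiv (rb_pg ha) (tl_pg hK1 (by positivity))
    rw [this]; ring
  have a4 : nt (fun k => rb B a k * kn k ^ 2) U ≤ Zd B a K U := by
    refine nt_mono hU ((rb_pg ha).mul_kn 2) ((Wk_pg ha hK1).mul_kn 2) fun k => ?_
    have h5 := rb_le_Wk (B := B) (K := K) ha k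
    have := kn_nonneg k
    gcongr
  have b1 := neg_abs_le (T3s (fw η (rb B a) (lp L U)) - T3s (fw η (rb B a) V)).re
  have b2 := Complex.abs_re_le_norm (T3s (fw η (rb B a) (lp L U)) - T3s (fw η (rb B a) V))
  have b3 := neg_abs_le (T3s (fw η (tl K (a ^ B.card)) U)).re
  have b4 := Complex.abs_re_le_norm (T3s (fw η (tl K (a ^ B.card)) U))
  have b5 := neg_abs_le (T3s (fw η (rb B a) U) - T3s (fw η (rb B a) (lp L U))).re
  have b6 := Complex.abs_re_le_norm (T3s (fw η (rb B a) U) - T3s (fw η (rb B a) (lp L U)))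
  rw [e, Complex.add_re, Complex.add_re, Complex.add_re]
  have c1 : -(T3s (fw η (rb B a) (lp L U)) - T3s (fw η (rb B a) V)).re ≤ δ * Zd B a K U := by
    have h5 : 17496 * H * S / N ^ 2 * (Real.sqrt (27 * lam ^ 5) * Real.sqrt E)
        * Zd B a K (lp L U) ≤ δ * Zd B a K U := by
      have h6 : 0 ≤ Zd B a K (lp L U) := Zd_nonneg ha
      calc _ ≤ δ * Zd B a K (lp L U) := by gcongr
        _ ≤ _ := by gcongr
    linarith
  have c2 : -(T3s (fw η (tl K (a ^ B.card)) U)).re ≤ δ * Zd B a K U := by linarith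
  have c5 : -(T3s (fw η (rb B a) U) - T3s (fw η (rb B a) (lp L U))).re ≤ δ * Zd B a K U := by
    have : 8748 * H * (Real.sqrt (27 * (2 * N) ^ 5) * Real.sqrt E) / L ^ 2 * Zd B a K U
      ≤ δ * Zd B a K U := by gcongr
    linarith
  have c3 : c * ν' * nt (fun k => rb B a k * kn k ^ 2) U ≤ c * ν' * Zd B a K U := by gcongr
  have c4 : 6 * Real.pi * δ * Zd B a K U ≤ (1 - c) * ν' * Zd B a K U := by gcongr
  have d1 : 4 * Real.pi * -(T3s (fw η (rb B a) (lp L U)) - T3s (fw η (rb B a) V)).re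
      ≤ 4 * Real.pi * (δ * Zd B a K U) := by gcongr
  have d2 : 4 * Real.pi * -(T3s (fw η (tl K (a ^ B.card)) U)).re
      ≤ 4 * Real.pi * (δ * Zd B a K U) := by gcongr
  have d3 : 4 * Real.pi * -(T3s (fw η (rb B a) U) - T3s (fw η (rb B a) (lp L U))).re
      ≤ 4 * Real.pi * (δ * Zd B a K U) := by gcongr
  nlinarith

end Pool.Agent.H226.SW
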