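import Pool.Agent.H226.OF.Cake

/-!
The derivative of the weighted norms of a smooth solution.
-/

open MeasureTheory Set Filter Topology
open scoped ENNReal InnerProductSpace NNReal ContDiff
open H459R3.NS Pool.Agent.X96.HT Pool.Agent.X96.DM

namespace Pool.Agent.H226.SW

variable {η : Md → Md → Md → ℝ} {D w : K3 → ℝ} {Cd Cw : ℝ} {r m : ℕ} {Λ : Set K3} {T : ℝ}
  {u : ℝ → V → V}

lemma w_bw (hw : Pol Cw m w) (hm : m ≤ r) {C : ℝ} (hC : 0 ≤ C) (k : K3) :
    |w k| * bw r C k ≤ Cw * 3 ^ m * be6 C k := by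
  have hCw := hw.nonneg
  by_cases hk : k = 0
  · subst hk
    unfold bw be6
    rw [mj_zero]
    simp
  · have h1 := N_pos hk
    have h2 := mj_nonneg k
    have h4 := kn_le_N k
    have h5 := kn_nonneg k
    have h6 : (1 + kn k) ^ m ≤ (3 * N k) ^ m := by
      gcongr
      linarith
    unfold bw be6
    have h7 : (N k : ℝ) ^ m * (mj k / (N k : ℝ) ^ (r + 2)) ≤ mj k / (N k : ℝ) ^ 2 := by
      have e : (N k : ℝ) ^ m * (mj k / (N k : ℝ) ^ (r + 2))
          = mj k / (N k : ℝ) ^ 2 * ((N k : ℝ) ^ m / (N k : ℝ) ^ r) := by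
        rw [pow_add]
        field_simp
      rw [e]
      have : (N k : ℝ) ^ m / (N k : ℝ) ^ r ≤ 1 := by
        rw [div_le_one (by positivity)]
        exact pow_le_pow_right₀ h1 hm
      exact mul_le_of_le_one_right (by positivity) this
    calc |w k| * (C * (mj k / (N k : ℝ) ^ (r + 2)))
        ≤ (Cw * (3 * N k) ^ m) * (C * (mj k / (N k : ℝ) ^ (r + 2))) := by
          gcongr
          exact (hw k).trans (by gcongr)
      _ = Cw * 3 ^ m * (C * ((N k : ℝ) ^ m * (mj k / (N k : ℝ) ^ (r + 2)))) := by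
          rw [mul_pow]; ring
      _ ≤ Cw * 3 ^ m * (C * (mj k / (N k : ℝ) ^ 2)) := by gcongr

lemma Pol.mul (hw : Pol Cw m w) (hD : Pol Cd r D) :
    Pol (Cw * Cd) (m + r) fun k => w k * D k := by
  intro k
  have h0 := kn_nonneg k
  have h1 := hw.nonneg
  have h2 := hD.nonneg
  rw [abs_mul, pow_add]
  calc |w k| * |D k| ≤ (Cw * (1 + kn k) ^ m) * (Cd * (1 + kn k) ^ r) :=
        mul_le_mul (hw k) (hD k) (abs_nonneg _) (by positivity)
    _ = _ := by ring

lemma sq2_deriv (hu : IsSolD η D Λ (Ico 0 T) u) {t : ℝ} (ht : t ∈ Ioo 0 T) (k : K3) :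
    HasDerivAt (fun s => sq2 (co (u s)) k)
      (-(2 * D k * sq2 (co (u t)) k)
        - 2 * (cd (co (u t) k) (nonl η (co (u t)) k)).re) t := by
  have htI : t ∈ Ico 0 T := ⟨ht.1.le, ht.2⟩
  unfold sq2
  by_cases hk : k ∈ Λ
  · have h2 := HasDerivAt.fun_sum (u := (Finset.univ : Finset (Fin 3)))
      fun i _ => (hu.eqn t htI ht.1 k hk i).norm_sq
    refine h2.congr_deriv ?_
    simp only [cd, Fin.sum_univ_three, Complex.inner, ← Complex.normSq_eq_norm_sq,
      Complex.normSq_apply, Complex.add_re, Complex.sub_re, Complex.mul_re, Complex.neg_re,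
      Complex.neg_im, Complex.mul_im, Complex.sub_im,
      Complex.ofReal_re, Complex.ofReal_im, Complex.conj_re, Complex.conj_im]
    ring
  · have h1 : (fun s => ∑ i, ‖co (u s) k i‖ ^ 2) =ᶠ[𝓝 t] fun _ => 0 := by
      filter_upwards [Ioo_mem_nhds ht.1 ht.2] with s hs
      simp [hu.supp s ⟨hs.1.le, hs.2⟩ k hk]
    have h2 : (-(2 * D k * ∑ i, ‖co (u t) k i‖ ^ 2)
        - 2 * (cd (co (u t) k) (nonl η (co (u t)) k)).re) = 0 := by
      rw [hu.supp t htI k hk]
      simp [cd]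
    rw [h2]
    exact (hasDerivAt_const t (0 : ℝ)).congr_of_eventuallyEq h1

theorem nt_deriv (hη : IsWeight η) (hΛ0 : (0 : K3) ∉ Λ) (hD : Pol Cd r D) (hw : Pol Cw m w)
    (hwe : ∀ k, w (-k) = w k) (hu : IsSolD η D Λ (Ico 0 T) u) {b : ℝ} (hb0 : 0 < b) (hb : b < T) :
    ContinuousOn (fun s => nt w (co (u s))) (Icc 0 b) ∧ ∀ t ∈ Ioo 0 b,
      HasDerivAt (fun s => nt w (co (u s))) (-(2 * nt (fun k => w k * D k) (co (u t)))
        - 4 * Real.pi * (T3s (fw η w (co (u t)))).re) t := by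
  obtain ⟨H, hH⟩ := hη.bdd
  have hH0 : 0 ≤ H := (abs_nonneg _).trans (hH (0, true) (0, true) (0, true))
  have hcB := cB_nonneg hH0
  have hCw := hw.nonneg
  have hCd := hD.nonneg
  set R := m + r with hR
  obtain ⟨C, hC0, hU⟩ := hu.bound hΛ0 hb R
  have hsub : Icc 0 b ⊆ Ico 0 T := fun s hs => ⟨hs.1, hs.2.trans_lt hb⟩
  set LN := cB H * (2 * ((∑' p, kn p * be6 C p) * ∑' p, be6 C p)) with hLN
  have hN1 : ∀ t ∈ Icc 0 b, ∀ k, ‖nonl η (co (u t)) k‖ ≤ LN := fun t ht k =>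
    norm_nonl_le hH hC0 (fun k => (hU t ht k).trans (bw_le hC0 k)) k
  have hLN0 : 0 ≤ LN := (norm_nonneg _).trans (hN1 0 ⟨le_rfl, hb0.le⟩ 0)
  have hsb := be6_summable hC0
  have hb6 : ∀ k, be6 C k ≤ ∑' p, be6 C p := fun k => hsb.le_tsum k fun j _ => be6_nonneg hC0 j
  set Sb := ∑' p, be6 C p with hSb
  have hSb0 : 0 ≤ Sb := tsum_nonneg fun k => be6_nonneg hC0 k
  set g : K3 → ℝ → ℝ := fun k s => w k * sq2 (co (u s)) k with hg
  set g' : K3 → ℝ → ℝ := fun k t => w k * (-(2 * D k * sq2 (co (u t)) k)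
        - 2 * (cd (co (u t) k) (nonl η (co (u t)) k)).re) with hg'
  have hq : ∀ t ∈ Icc 0 b, ∀ k, sq2 (co (u t)) k ≤ 3 * (bw R C k * bw R C k) := by
    intro t ht k
    have h1 : sq2 (co (u t)) k ≤ 3 * ‖co (u t) k‖ ^ 2 := sum_sq_le _
    have h2 := hU t ht k
    calc sq2 (co (u t)) k ≤ 3 * ‖co (u t) k‖ ^ 2 := h1
      _ ≤ 3 * (bw R C k) ^ 2 := by gcongr
      _ = _ := by ring
  have hgb : ∀ t ∈ Icc 0 b, ∀ k, ‖g k t‖ ≤ 3 * (Cw * 3 ^ m * Sb) * be6 C k := by
    intro t ht k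
    have h1 := w_bw (r := R) hw (by omega) hC0 k
    have h2 := bw_nonneg (r := R) hC0 k
    have h3 := bw_le (r := R) hC0 k
    have h4 := hb6 k
    have h5 := be6_nonneg hC0 k
    rw [Real.norm_eq_abs, abs_mul, abs_of_nonneg (sq2_nonneg _ k)]
    calc |w k| * sq2 (co (u t)) k ≤ |w k| * (3 * (bw R C k * bw R C k)) := by
          gcongr; exact hq t ht k
      _ = 3 * (|w k| * bw R C k) * bw R C k := by ring
      _ ≤ 3 * (Cw * 3 ^ m * be6 C k) * be6 C k := by gcongr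
      _ ≤ 3 * (Cw * 3 ^ m * Sb) * be6 C k := by gcongr
  set cc : ℝ := 6 * (Cw * Cd * 3 ^ R * C) + 6 * (Cw * 3 ^ m) * LN with hcc
  have hg'b : ∀ t ∈ Icc 0 b, ∀ k, ‖g' k t‖ ≤ cc * be6 C k := by
    intro t ht k
    have h1 := w_bw (r := R) hw (by omega) hC0 k
    have h2 := bw_nonneg (r := R) hC0 k
    have h3 := D_bw (Pol.mul hw hD) hC0 k
    have h3' := bw_le (r := R) hC0 k
    have h5 := be6_nonneg hC0 k
    have h4 : |(cd (co (u t) k) (nonl η (co (u t)) k)).re| ≤ 3 * (bw R C k * LN) := by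
      refine (Complex.abs_re_le_norm _).trans ((norm_cd_le _ _).trans ?_)
      have h5 := hU t ht k
      have h6 := hN1 t ht k
      gcongr
    have h7 : |w k| * |2 * D k * sq2 (co (u t)) k| ≤ 6 * (Cw * Cd * 3 ^ R * C) * be6 C k := by
      rw [abs_mul, abs_mul, abs_two, abs_of_nonneg (sq2_nonneg _ k)]
      rw [abs_mul] at h3
      calc |w k| * (2 * |D k| * sq2 (co (u t)) k)
          ≤ |w k| * (2 * |D k| * (3 * (bw R C k * bw R C k))) := by
            gcongr
            exact hq t ht k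
        _ = 6 * (|w k| * |D k| * bw R C k) * bw R C k := by ring
        _ ≤ 6 * (Cw * Cd * 3 ^ R * C) * be6 C k := by gcongr
    rw [Real.norm_eq_abs, abs_mul]
    have h8 : |-(2 * D k * sq2 (co (u t)) k) - 2 * (cd (co (u t) k) (nonl η (co (u t)) k)).re|
        ≤ |2 * D k * sq2 (co (u t)) k| + 2 * |(cd (co (u t) k) (nonl η (co (u t)) k)).re| := by
      have := abs_sub (-(2 * D k * sq2 (co (u t)) k)) (2 * (cd (co (u t) k)
        (nonl η (co (u t)) k)).re)
      rw [abs_neg, abs_mul 2 (Complex.re _), abs_two] at this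
      exact this
    calc |w k| * |-(2 * D k * sq2 (co (u t)) k) - 2 * (cd (co (u t) k)
          (nonl η (co (u t)) k)).re|
        ≤ |w k| * (|2 * D k * sq2 (co (u t)) k|
          + 2 * |(cd (co (u t) k) (nonl η (co (u t)) k)).re|) := by gcongr
      _ = |w k| * |2 * D k * sq2 (co (u t)) k|
          + 2 * |w k| * |(cd (co (u t) k) (nonl η (co (u t)) k)).re| := by ring
      _ ≤ 6 * (Cw * Cd * 3 ^ R * C) * be6 C k + 2 * |w k| * (3 * (bw R C k * LN)) := by gcongr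
      _ = 6 * (Cw * Cd * 3 ^ R * C) * be6 C k + 6 * (|w k| * bw R C k) * LN := by ring
      _ ≤ 6 * (Cw * Cd * 3 ^ R * C) * be6 C k + 6 * (Cw * 3 ^ m * be6 C k) * LN := by gcongr
      _ = _ := by rw [hcc]; ring
  have hgs : ∀ t ∈ Icc 0 b, Summable fun k => g k t := fun t ht =>
    Summable.of_norm_bounded (hsb.mul_left _) (hgb t ht)
  refine ⟨?_, fun t ht => ?_⟩
  · refine continuousOn_tsum (u := fun k => 3 * (Cw * 3 ^ m * Sb) * be6 C k) (fun k => ?_)
      (hsb.mul_left _) fun k t ht => hgb t ht k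
    refine ContinuousOn.mul continuousOn_const (continuousOn_finsetSum _ fun i _ => ?_)
    exact ((hu.cont k i).mono hsub).norm.pow 2
  · have htI : t ∈ Icc 0 b := ⟨ht.1.le, ht.2.le⟩
    have htT : t ∈ Ico 0 T := hsub htI
    have h1 : HasDerivAt (fun s => ∑' k, g k s) (∑' k, g' k t) t := by
      refine hasDerivAt_tsum_of_isPreconnected (u := fun k => cc * be6 C k) (hsb.mul_left _)
        isOpen_Ioo isPreconnected_Ioo (fun k y hy => ?_) (fun k y hy => ?_) ht
        (hgs t htI) ht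
      · exact (sq2_deriv hu ⟨hy.1, hy.2.trans hb⟩ k).const_mul (w k)
      · exact hg'b y ⟨hy.1.le, hy.2.le⟩ k
    refine h1.congr_deriv ?_
    have hsp : ∀ i, SP (fun x => u t x i) := fun i => hu.sp htT i
    have hrap : RapV (co (u t)) := rapV_co hsp
    have hp := pair_rap hη hrap (dp_co hsp (hu.divfree t htT))
      (fun k => by funext i; exact fr_neg_conj _ k) hwe ⟨Cw, m, hw⟩
    have hre := Complex.hasSum_re hp
    have e1 : (2 * (Real.pi : ℂ) * T3s (fw η w (co (u t)))).re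
        = 2 * Real.pi * (T3s (fw η w (co (u t)))).re := by
      have : (2 * (Real.pi : ℂ)) = ((2 * Real.pi : ℝ) : ℂ) := by push_cast; ring
      rw [this, Complex.re_ofReal_mul]
    rw [e1] at hre
    have hs2 : Summable fun k => w k * D k * sq2 (co (u t)) k :=
      PG.smq ⟨Cw * Cd, m + r, Pol.mul hw hD⟩ hrap
    have h2 : ∀ k, g' k t = -(2 * (w k * D k * sq2 (co (u t)) k))
        - 2 * ((w k : ℂ) * ∑ i, (starRingEnd ℂ) (co (u t) k i) * nonl η (co (u t)) k i).re := by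
      intro k
      simp only [hg']
      rw [Complex.re_ofReal_mul]
      unfold cd
      ring
    simp_rw [h2]
    rw [((hs2.mul_left 2).neg).tsum_sub (hre.summable.mul_left 2), tsum_neg, tsum_mul_left,
      tsum_mul_left, hre.tsum_eq]
    unfold nt
    ring

end Pool.Agent.H226.SW
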