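import Pool.Agent.H226.OF.Tail

/-!
The main inequality.
-/

open MeasureTheory Set Filter Topology
open scoped ENNReal
open H459R3.NS Pool.Agent.X96.HT Pool.Agent.X96.DM

namespace Pool.Agent.H226.SW

variable {η : Md → Md → Md → ℝ} {U : K3 → C3} {k p q : K3} {H : ℝ} {N : ℕ} {lam K M : ℝ}

/-- the sum of the squares of the moduli of the components -/
noncomputable def sq2 (U : K3 → C3) (k : K3) : ℝ := ∑ i, ‖U k i‖ ^ 2

lemma sq2_nonneg (U : K3 → C3) (k : K3) : 0 ≤ sq2 U k := Finset.sum_nonneg fun _ _ => by positivity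

/-- the weighted norm -/
noncomputable def nt (w : K3 → ℝ) (U : K3 → C3) : ℝ := ∑' k, w k * sq2 U k

lemma PG.smq {w : K3 → ℝ} (hw : PG w) (hU : RapV U) : Summable fun k => w k * sq2 U k := by
  have h1 := hw.summable hU
  have h0 : Summable fun k => ‖U k‖ := by simpa using hU 0
  have hM : ∀ k, ‖U k‖ ≤ ∑' m, ‖U m‖ := fun k => h0.le_tsum k fun _ _ => norm_nonneg _
  refine Summable.of_norm_bounded (h1.mul_left (3 * ∑' m, ‖U m‖)) fun k => ?_
  have h2 : sq2 U k ≤ 3 * ‖U k‖ ^ 2 := sum_sq_le (U k)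
  rw [norm_mul, Real.norm_eq_abs, Real.norm_of_nonneg (sq2_nonneg U k)]
  have h3 := hM k
  calc |w k| * sq2 U k ≤ |w k| * (3 * (‖U k‖ * ‖U k‖)) := by rw [pow_two] at h2; gcongr
    _ ≤ |w k| * (3 * ((∑' m, ‖U m‖) * ‖U k‖)) := by gcongr
    _ = _ := by ring

lemma nt_nonneg {w : K3 → ℝ} (hw : ∀ k, 0 ≤ w k) : 0 ≤ nt w U :=
  tsum_nonneg fun k => mul_nonneg (hw k) (sq2_nonneg U k)

lemma nt_mono (hU : RapV U) {w v : K3 → ℝ} (hw : PG w) (hv : PG v) (h : ∀ k, w k ≤ v k) :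
    nt w U ≤ nt v U :=
  (hw.smq hU).tsum_le_tsum (fun k => mul_le_mul_of_nonneg_right (h k) (sq2_nonneg U k)) (hv.smq hU)

/-- the weights -/
noncomputable def Wk (B : Finset ℕ) (a K : ℝ) (k : K3) : ℝ := rb B a k + tl K (a ^ B.card) k

section

variable {B : Finset ℕ} {a S : ℝ}

lemma Wk_ge (ha : 1 ≤ a) (k : K3) : 1 ≤ Wk B a K k := by
  have := rb_ge (B := B) ha k
  have := tl_nonneg (K := K) (M := a ^ B.card) (by positivity) k
  unfold Wk; linarith

lemma rb_le_Wk (ha : 1 ≤ a) (k : K3) : rb B a k ≤ Wk B a K k := by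
  have := tl_nonneg (K := K) (M := a ^ B.card) (by positivity) k
  unfold Wk; linarith

lemma Wk_pg (ha : 1 ≤ a) (hK : 1 ≤ K) : PG (Wk B a K) :=
  (rb_pg ha).add (tl_pg hK (by positivity))

lemma Wk_neg (k : K3) : Wk B a K (-k) = Wk B a K k := by
  unfold Wk; rw [rb_neg, tl_neg]

lemma Wk_high (hB : ∀ n ∈ B, n ≤ 4 * N ^ 2) (h : 2 * N ≤ kn k) :
    Wk B a K k = a ^ B.card * ub K k ^ 2 := by
  unfold Wk tl
  rw [rb_two hB h]
  ring

lemma kn_sq_le (ha : 1 ≤ a) (hB : ∀ n ∈ B, n ≤ 4 * N ^ 2) (hN : 0 < N) (hK : 2 * N ≤ K)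
    (k : K3) : kn k ^ 2 ≤ K ^ 2 * Wk B a K k := by
  have hN' : (1 : ℝ) ≤ N := by exact_mod_cast hN
  have hK0 : 0 < K := by linarith
  have h0 := kn_nonneg k
  rcases le_total (kn k) K with h | h
  · have h1 := Wk_ge (B := B) (K := K) ha k
    have h2 : kn k ^ 2 ≤ K ^ 2 := by gcongr
    nlinarith [sq_nonneg K]
  · rw [Wk_high hB (hK.trans h), ub_two hK0 h]
    have h1 : (1 : ℝ) ≤ a ^ B.card := one_le_pow₀ ha
    have h2 : K ^ 2 * (a ^ B.card * (kn k / K) ^ 2) = a ^ B.card * kn k ^ 2 := by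
      field_simp
    rw [h2]
    nlinarith [sq_nonneg (kn k)]

lemma kn_sq_high (ha : 1 ≤ a) (hB : ∀ n ∈ B, n ≤ 4 * N ^ 2) (hN : 0 < N) (hK : 2 * N ≤ K)
    (h : 2 * N ≤ kn k) : kn k ^ 2 ≤ K ^ 2 / a ^ B.card * Wk B a K k := by
  have hN' : (1 : ℝ) ≤ N := by exact_mod_cast hN
  have hK0 : 0 < K := by linarith
  have ha0 : 0 < a := by linarith
  rw [Wk_high hB h]
  have h1 : kn k / K ≤ ub K k := le_max_right _ _
  have h0 := kn_nonneg k
  have h2 : (kn k / K) ^ 2 ≤ ub K k ^ 2 := by gcongr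
  have h3 : K ^ 2 / a ^ B.card * (a ^ B.card * ub K k ^ 2) = K ^ 2 * ub K k ^ 2 := by
    field_simp
  rw [h3]
  calc kn k ^ 2 = K ^ 2 * (kn k / K) ^ 2 := by field_simp
    _ ≤ _ := by gcongr

lemma lg_le {w : K3 → ℝ} (hw : ∀ k, 0 ≤ w k) (A : ℝ) (U : K3 → C3) (p : K3) :
    lg w A U p ≤ if A ≤ kn p then 9 * (w p * sq2 U p) else 0 := by
  unfold lg
  split_ifs
  · have h1 := bt_sq_le p (U p)
    have h2 := hw p
    calc w p * bt p (U p) ^ 2 ≤ w p * (9 * sq2 U p) := by gcongr; exact h1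
      _ = _ := by ring
  · exact le_rfl

lemma norm_le_of_enorm {z : ℂ} {B : ℝ} (hB : 0 ≤ B) (h : ‖z‖ₑ ≤ ENNReal.ofReal B) : ‖z‖ ≤ B := by
  rw [← ofReal_norm] at h
  exact (ENNReal.ofReal_le_ofReal_iff hB).1 h

/-- the dissipation, without the viscosity -/
noncomputable def Zd (B : Finset ℕ) (a K : ℝ) (U : K3 → C3) : ℝ :=
  nt (fun k => Wk B a K k * kn k ^ 2) U

lemma Zd_nonneg (ha : 1 ≤ a) : 0 ≤ Zd B a K U :=
  nt_nonneg fun k => mul_nonneg (zero_le_one.trans (Wk_ge ha k)) (by positivity)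

/-- the nonlocal triads are absorbed by the dissipation -/
theorem far_real (hη : IsWeight η) (hH : ∀ a b c, |η a b c| ≤ H) (hU : RapV U)
    (hdiv : ∀ k, dp (kc k) (U k) = 0) (hN : 0 < N) (ha : 1 ≤ a) (hB1 : ∀ n ∈ B, N ^ 2 < n)
    (hB2 : ∀ n ∈ B, n ≤ 4 * N ^ 2) (hS1 : 1 ≤ S) (hS : 4 * N ^ 2 * (a - 1) ≤ S) (hK : 1 ≤ K)
    (hl : S * (lam / N) ≤ 1 / 2) {E : ℝ} (hE : nt (fun _ => 1) U ≤ E) :
    ‖T3s (fw η (rb B a) U) - T3s (fw η (rb B a) (hp lam U))‖
      ≤ 17496 * H * S / N ^ 2 * (Real.sqrt (27 * lam ^ 5) * Real.sqrt E) * Zd B a K U := by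
  have hH0 : 0 ≤ H := (abs_nonneg _).trans (hH (0, true) (0, true) (0, true))
  have hN' : (0 : ℝ) < N := by exact_mod_cast hN
  have hZ : 0 ≤ Zd B a K U := Zd_nonneg ha
  have hS0 : 0 ≤ S := by linarith
  refine norm_le_of_enorm (by positivity)
    ((far_ramp hη hH hU hdiv hN ha hB1 hB2 hS1 hS hl).trans ?_)
  have h1 : ∑' k, ENNReal.ofReal (sh (fun k => kn k < lam) U k)
      ≤ ENNReal.ofReal (3 * (Real.sqrt (27 * lam ^ 5) * Real.sqrt E)) := by
    refine sh_tsum_le fun A hA => ?_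
    rcases lt_or_ge lam 1 with hl1 | hl1
    · have h2 : ∑ k ∈ A, kn k * ‖U k‖ = 0 := by
        refine Finset.sum_eq_zero fun k hk => ?_
        by_cases hk0 : k = 0
        · rw [hk0, kn_zero, zero_mul]
        · have := one_le_kn hk0
          have := hA k hk
          linarith
      rw [h2]
      positivity
    have h2 := sum_kn_le (U := U) (w := fun _ => 1) (fun _ => one_pos)
      ((PG.of_le (w := fun _ => 1) (C := 1) fun k => by simp).smq hU) hE hl1
      (X := lam ^ 2) (by positivity) A fun k hk => ⟨(hA k hk).le, by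
        have := kn_nonneg k
        have := (hA k hk).le
        rw [mul_one]
        gcongr⟩
    have e : 27 * lam ^ 3 * lam ^ 2 = 27 * lam ^ 5 := by ring
    rwa [e] at h2
  have hsm := ((Wk_pg (B := B) ha hK).mul_kn 2).smq hU
  have h2 : ∑' p, ENNReal.ofReal (162 * H * S * lg (rb B a) (N / 2) U p)
      ≤ ENNReal.ofReal (162 * H * S * (36 / N ^ 2) * Zd B a K U) := by
    unfold Zd nt
    rw [← tsum_mul_left, ENNReal.ofReal_tsum_of_nonneg (fun k => by
      have := zero_le_one.trans (Wk_ge (B := B) (K := K) ha k)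
      have := sq2_nonneg U k
      positivity) (hsm.mul_left _)]
    refine ENNReal.tsum_le_tsum fun p => ENNReal.ofReal_le_ofReal ?_
    have h3 := lg_le (fun k => zero_le_one.trans (rb_ge (B := B) ha k)) (N / 2) U p
    have h4 := zero_le_one.trans (rb_ge (B := B) ha p)
    have h5 := sq2_nonneg U p
    have h6 := zero_le_one.trans (Wk_ge (B := B) (K := K) ha p)
    have h7 := rb_le_Wk (B := B) (K := K) ha p
    split_ifs at h3 with h8
    · have h9 : 1 ≤ 4 / (N : ℝ) ^ 2 * kn p ^ 2 := by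
        rw [div_mul_eq_mul_div, le_div_iff₀ (by positivity)]
        nlinarith
      calc 162 * H * S * lg (rb B a) (N / 2) U p
          ≤ 162 * H * S * (9 * (rb B a p * sq2 U p)) := by gcongr
        _ ≤ 162 * H * S * (9 * (Wk B a K p * sq2 U p)) * (4 / (N : ℝ) ^ 2 * kn p ^ 2) := by
            refine le_trans (b := 162 * H * S * (9 * (Wk B a K p * sq2 U p))) (by gcongr) ?_
            exact le_mul_of_one_le_right (by positivity) h9
        _ = _ := by ring
    · calc 162 * H * S * lg (rb B a) (N / 2) U p ≤ 162 * H * S * 0 := by gcongr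
        _ = 0 := by ring
        _ ≤ _ := by positivity
  refine (mul_le_mul' h1 h2).trans (le_of_eq ?_)
  rw [← ENNReal.ofReal_mul (by positivity)]
  congr 1
  ring

/-- the tail of the weights -/
theorem tail_real (hη : IsWeight η) (hH : ∀ a b c, |η a b c| ≤ H) (hU : RapV U)
    (hdiv : ∀ k, dp (kc k) (U k) = 0) (hN : 0 < N) (ha : 1 ≤ a)
    (hB2 : ∀ n ∈ B, n ≤ 4 * N ^ 2) (hK : 4 * N ≤ K) {E F δ : ℝ} (hδ : 0 ≤ δ)
    (hE : nt (fun _ => 1) U ≤ E) (hF : nt (Wk B a K) U ≤ F)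
    (h1 : 8748 * H * (Real.sqrt (27 * (2 * N) ^ 5) * Real.sqrt E) ≤ δ / 2 * (K / 2) ^ 2)
    (h2 : 8748 * H * (Real.sqrt (27 * (K ^ 2 / a ^ B.card)) * Real.sqrt F)
      ≤ δ / 2 * Real.sqrt (K / 2)) :
    ‖T3s (fw η (tl K (a ^ B.card)) U)‖ ≤ δ * Zd B a K U := by
  classical
  have hH0 : 0 ≤ H := (abs_nonneg _).trans (hH (0, true) (0, true) (0, true))
  have hN' : (1 : ℝ) ≤ N := by exact_mod_cast hN
  have hK1 : 1 ≤ K := by linarith
  have ha0 : 0 < a := by linarith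
  have hZ : 0 ≤ Zd B a K U := Zd_nonneg ha
  have hsm := ((Wk_pg (B := B) ha hK1).mul_kn 2).smq hU
  refine norm_le_of_enorm (by positivity) ((tail_prod hη hH hU hdiv hK1 (by positivity)).trans ?_)
  unfold Zd nt
  rw [← tsum_mul_left, ENNReal.ofReal_tsum_of_nonneg (fun k => by
      have := zero_le_one.trans (Wk_ge (B := B) (K := K) ha k)
      have := sq2_nonneg U k
      positivity) (hsm.mul_left _)]
  refine ENNReal.tsum_le_tsum fun p => ?_
  have h5 := sq2_nonneg U p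
  have h6 := zero_le_one.trans (Wk_ge (B := B) (K := K) ha p)
  by_cases hp : K / 2 ≤ kn p
  · have hp0 := kn_nonneg p
    have hp2 : 2 * (N : ℝ) ≤ kn p := by linarith
    have hp1 : 1 ≤ kn p := by linarith
    have hgl : ∑' k, ENNReal.ofReal (sh (fun k => kn k ≤ kn p) U k)
        ≤ ENNReal.ofReal (3 * (Real.sqrt (27 * (2 * N) ^ 5) * Real.sqrt E
          + Real.sqrt (27 * kn p ^ 3 * (K ^ 2 / a ^ B.card)) * Real.sqrt F)) := by
      refine sh_tsum_le fun A hA => ?_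
      rw [← Finset.sum_filter_add_sum_filter_not A (fun k => kn k ≤ 2 * N)]
      refine add_le_add ?_ ?_
      · have h3 := sum_kn_le (U := U) (w := fun _ => 1) (fun _ => one_pos)
          ((PG.of_le (w := fun _ => 1) (C := 1) fun k => by simp).smq hU) hE
          (P := 2 * N) (by linarith) (X := (2 * N) ^ 2) (by positivity)
          (A.filter fun k => kn k ≤ 2 * N) fun k hk => by
            have h4 := (Finset.mem_filter.1 hk).2
            have := kn_nonneg k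
            exact ⟨h4, by rw [mul_one]; gcongr⟩
        have e : 27 * (2 * (N : ℝ)) ^ 3 * (2 * N) ^ 2 = 27 * (2 * N) ^ 5 := by ring
        rwa [e] at h3
      · exact sum_kn_le (U := U) (w := Wk B a K)
          (fun k => by linarith [Wk_ge (B := B) (K := K) ha k])
          ((Wk_pg ha hK1).smq hU) hF hp1 (X := K ^ 2 / a ^ B.card) (by positivity)
          (A.filter fun k => ¬kn k ≤ 2 * N) fun k hk => by
            have h4 := Finset.mem_filter.1 hk
            exact ⟨hA k h4.1, kn_sq_high ha hB2 hN (by linarith) (by linarith [not_le.1 h4.2])⟩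
    have hlg := lg_le (w := fun p => ub K p ^ 2) (fun k => by positivity) (K / 2) U p
    rw [if_pos hp] at hlg
    have hlg0 := lg_nonneg (w := fun p => ub K p ^ 2) (fun k => by positivity) (K / 2) U p
    -- the bound of the gradient
    have hgr : 8748 * H * (Real.sqrt (27 * (2 * N) ^ 5) * Real.sqrt E
          + Real.sqrt (27 * kn p ^ 3 * (K ^ 2 / a ^ B.card)) * Real.sqrt F) ≤ δ * kn p ^ 2 := by
      have a1 : δ / 2 * (K / 2) ^ 2 ≤ δ / 2 * kn p ^ 2 := by gcongr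
      have e1 : Real.sqrt (27 * kn p ^ 3 * (K ^ 2 / a ^ B.card))
          = kn p * Real.sqrt (kn p) * Real.sqrt (27 * (K ^ 2 / a ^ B.card)) := by
        rw [show 27 * kn p ^ 3 * (K ^ 2 / a ^ B.card) = (kn p ^ 2 * kn p)
          * (27 * (K ^ 2 / a ^ B.card)) by
          ring, Real.sqrt_mul (by positivity), Real.sqrt_mul (by positivity),
          Real.sqrt_sq hp0]
      have e2 : Real.sqrt (K / 2) ≤ Real.sqrt (kn p) := Real.sqrt_le_sqrt hp
      have e3 : Real.sqrt (kn p) * Real.sqrt (kn p) = kn p := Real.mul_self_sqrt hp0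
      have e4 : 0 ≤ Real.sqrt (kn p) := Real.sqrt_nonneg _
      have a2 : 8748 * H * (Real.sqrt (27 * kn p ^ 3 * (K ^ 2 / a ^ B.card)) * Real.sqrt F)
          ≤ δ / 2 * kn p ^ 2 := by
        rw [e1]
        calc 8748 * H * (kn p * Real.sqrt (kn p) * Real.sqrt (27 * (K ^ 2 / a ^ B.card))
              * Real.sqrt F)
            = (8748 * H * (Real.sqrt (27 * (K ^ 2 / a ^ B.card)) * Real.sqrt F))
              * (kn p * Real.sqrt (kn p)) := by ring
          _ ≤ (δ / 2 * Real.sqrt (K / 2)) * (kn p * Real.sqrt (kn p)) := by gcongr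
          _ ≤ (δ / 2 * Real.sqrt (kn p)) * (kn p * Real.sqrt (kn p)) := by gcongr
          _ = δ / 2 * kn p * (Real.sqrt (kn p) * Real.sqrt (kn p)) := by ring
          _ = _ := by rw [e3]; ring
      linarith
    refine (mul_le_mul' hgl le_rfl).trans ?_
    rw [← ENNReal.ofReal_mul (by positivity)]
    refine ENNReal.ofReal_le_ofReal ?_
    set G := Real.sqrt (27 * (2 * N) ^ 5) * Real.sqrt E
          + Real.sqrt (27 * kn p ^ 3 * (K ^ 2 / a ^ B.card)) * Real.sqrt F with hG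
    have hG0 : 0 ≤ G := by positivity
    rw [Wk_high hB2 hp2]
    calc 3 * G * (324 * H * a ^ B.card * lg (fun p => ub K p ^ 2) (K / 2) U p)
        ≤ 3 * G * (324 * H * a ^ B.card * (9 * (ub K p ^ 2 * sq2 U p))) := by gcongr
      _ = (8748 * H * G) * (a ^ B.card * ub K p ^ 2 * sq2 U p) := by ring
      _ ≤ (δ * kn p ^ 2) * (a ^ B.card * ub K p ^ 2 * sq2 U p) := by gcongr
      _ = _ := by ring
  · have e : lg (fun p => ub K p ^ 2) (K / 2) U p = 0 := if_neg hp
    rw [e, mul_zero, ENNReal.ofReal_zero, mul_zero]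
    exact zero_le

end

end Pool.Agent.H226.SW
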