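import Pool.Agent.H226.OF.Deriv

/-!
The choice of the parameters and the bound of the weighted norm.
-/

open MeasureTheory Set Filter Topology
open scoped ENNReal
open H459R3.NS Pool.Agent.X96.HT Pool.Agent.X96.DM

namespace Pool.Agent.H226.SW

variable {η : Md → Md → Md → ℝ} {U : K3 → C3} {H : ℝ} {N : ℕ} {lam K L : ℝ} {Λ : Set K3}
  {B : Finset ℕ} {a S : ℝ}

/-- a barrier -/
lemma barrier {F F' φ : ℝ → ℝ} {b Fs : ℝ} (hFc : ContinuousOn F (Icc 0 b))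
    (hFd : ∀ t ∈ Ioo 0 b, HasDerivAt F (F' t) t) (hle : ∀ t ∈ Ioo 0 b, F t ≤ Fs → F' t ≤ φ t)
    (hφi : IntegrableOn φ (Ioo 0 b)) (hφ0 : ∀ t, 0 ≤ φ t)
    (h0 : F 0 + ∫ t in Ioo 0 b, φ t < Fs) : ∀ t ∈ Icc 0 b, F t < Fs := by
  by_contra hcon
  push Not at hcon
  obtain ⟨t₁, ht₁, hF₁⟩ := hcon
  have hint : 0 ≤ ∫ t in Ioo 0 b, φ t := integral_nonneg hφ0
  set Z : Set ℝ := Icc 0 b ∩ F ⁻¹' Ici Fs with hZ
  have hZc : IsClosed Z := hFc.preimage_isClosed_of_isClosed isClosed_Icc isClosed_Ici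
  have hZn : Z.Nonempty := ⟨t₁, ht₁, hF₁⟩
  have hZb : BddBelow Z := ⟨0, fun t ht => ht.1.1⟩
  set τ := sInf Z with hτ
  have hτZ : τ ∈ Z := hZc.csInf_mem hZn hZb
  have hτF : Fs ≤ F τ := hτZ.2
  have hτ0 : 0 < τ := by
    rcases hτZ.1.1.eq_or_lt with h | h
    · rw [← h] at hτF
      linarith
    · exact h
  have hlt : ∀ t ∈ Ioo 0 τ, F t ≤ Fs := by
    intro t ht
    by_contra hc
    push Not at hc
    have : t ∈ Z := ⟨⟨ht.1.le, ht.2.le.trans hτZ.1.2⟩, hc.le⟩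
    have := csInf_le hZb this
    rw [← hτ] at this
    linarith [ht.2]
  have hsub : Icc 0 τ ⊆ Icc 0 b := Icc_subset_Icc_right hτZ.1.2
  have hsub' : Ioo 0 τ ⊆ Ioo 0 b := Ioo_subset_Ioo_right hτZ.1.2
  have hi : IntegrableOn φ (Icc 0 τ) :=
    (integrableOn_Icc_iff_integrableOn_Ioo).2 (hφi.mono_set hsub')
  have h1 := intervalIntegral.sub_le_integral_of_hasDeriv_right_of_le hτ0.le (hFc.mono hsub)
    (fun t ht => (hFd t (hsub' ht)).hasDerivWithinAt) hi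
    fun t ht => hle t (hsub' ht) (hlt t ht)
  have h2 : ∫ t in (0 : ℝ)..τ, φ t ≤ ∫ t in Ioo 0 b, φ t := by
    rw [intervalIntegral.integral_of_le hτ0.le, integral_Ioc_eq_integral_Ioo]
    exact setIntegral_mono_set hφi (Eventually.of_forall fun t => hφ0 t)
      (LE.le.eventuallyLE hsub')
  linarith

lemma Wk_le (hN : 0 < N) (ha : 1 ≤ a) (hB1 : ∀ n ∈ B, N ^ 2 < n) (hK : N ≤ K) (k : K3) :
    Wk B a K k ≤ 1 + a ^ B.card / (N : ℝ) ^ 2 * kn k ^ 2 := by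
  have hN' : (0 : ℝ) < N := by exact_mod_cast hN
  have hK0 : 0 < K := hN'.trans_le hK
  have h0 := kn_nonneg k
  have ha0 : 0 < a := by linarith
  rcases le_total (kn k) N with h | h
  · unfold Wk
    rw [rb_one hB1 h, tl_zero hK0 (h.trans hK)]
    have : 0 ≤ a ^ B.card / (N : ℝ) ^ 2 * kn k ^ 2 := by positivity
    linarith
  · have h1 := rb_le (B := B) ha k
    have h2 : ub K k ≤ kn k / N := by
      unfold ub
      refine max_le ((one_le_div hN').2 h) ?_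
      gcongr
    have h3 := ub_ge K k
    have h4 : ub K k ^ 2 ≤ (kn k / N) ^ 2 := by gcongr
    unfold Wk tl
    calc rb B a k + a ^ B.card * (ub K k ^ 2 - 1)
        ≤ a ^ B.card + a ^ B.card * ((kn k / N) ^ 2 - 1) := by gcongr
      _ = a ^ B.card / (N : ℝ) ^ 2 * kn k ^ 2 := by field_simp; ring
      _ ≤ _ := by linarith

/-- the bound of the weighted norm -/
theorem core_bound (hη : IsWeight η) (hH : ∀ a b c, |η a b c| ≤ H) (hΛ0 : (0 : K3) ∉ Λ)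
    {ν' T : ℝ} {u : ℝ → V → V} (hu : IsSolD η (fun k => ν' * kn k ^ 2) Λ (Ico 0 T) u)
    (hN : 0 < N) (ha : 1 ≤ a) (hB1 : ∀ n ∈ B, N ^ 2 < n)
    (hB2 : ∀ n ∈ B, n ≤ 4 * N ^ 2) (hS1 : 1 ≤ S) (hS : 4 * N ^ 2 * (a - 1) ≤ S)
    (hK : 4 * N ≤ K) (hL : 4 * N ≤ L) (hl : S * (lam / N) ≤ 1 / 2) {E G δ c I : ℝ} (hδ : 0 ≤ δ)
    (hc : 0 ≤ c) (hν : 0 ≤ ν') (hI : 0 ≤ I)
    (hE : nt (fun _ => 1) (co (u 0)) ≤ E) (hG : nt (fun k => kn k ^ 2) (co (u 0)) ≤ G)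
    (h1 : 8748 * H * (Real.sqrt (27 * (2 * N) ^ 5) * Real.sqrt E) ≤ δ / 2 * (K / 2) ^ 2)
    (h2 : 8748 * H * (Real.sqrt (27 * (K ^ 2 / a ^ B.card)) * Real.sqrt (3 * E))
      ≤ δ / 2 * Real.sqrt (K / 2))
    (h3 : 17496 * H * S / N ^ 2 * (Real.sqrt (27 * lam ^ 5) * Real.sqrt E) ≤ δ)
    (h4 : 8748 * H * (Real.sqrt (27 * (2 * N) ^ 5) * Real.sqrt E) / L ^ 2 ≤ δ)
    (hδν : 6 * Real.pi * δ ≤ (1 - c) * ν') {g : ℕ → ℝ → ℝ} (hg0 : ∀ n ∈ B, ∀ t, 0 ≤ g n t)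
    (hgi : ∀ n ∈ B, IntegrableOn (g n) (Ioo 0 T)) (hgI : ∀ n ∈ B, ∫ t in Ioo 0 T, g n t ≤ I)
    (hsum : E + a ^ B.card / (N : ℝ) ^ 2 * G + 2 * a ^ B.card * I < 3 * E)
    (hflux : ∀ t ∈ Ioo 0 T, ∀ n ∈ B,
      -(2 * Real.pi * (T3s (fw η (ix n) (hp lam (lp L (co (u t)))))).re)
      ≤ c * (ν' * nt (fun k => ix n k * kn k ^ 2) (co (u t))) + g n t) :
    ∀ t ∈ Ico 0 T, nt (Wk B a K) (co (u t)) ≤ 3 * E := by
  have hN' : (1 : ℝ) ≤ N := by exact_mod_cast hN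
  have hK1 : 1 ≤ K := by linarith
  have ha0 : 0 < a := by linarith
  have hM1 : (1 : ℝ) ≤ a ^ B.card := one_le_pow₀ ha
  have polW : Pol (a ^ B.card + a ^ B.card) 2 (Wk B a K) := by
    intro k
    have h0 := kn_nonneg k
    rw [abs_of_nonneg (zero_le_one.trans (Wk_ge ha k))]
    have h4 := Wk_le (K := K) hN ha hB1 (by linarith) k
    have h5 : a ^ B.card / (N : ℝ) ^ 2 ≤ a ^ B.card :=
      div_le_self (by positivity) (one_le_pow₀ hN')
    have h7 : 1 + a ^ B.card / (N : ℝ) ^ 2 * kn k ^ 2 ≤ a ^ B.card + a ^ B.card * kn k ^ 2 := by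
      gcongr
    nlinarith
  have polD : Pol ν' 2 fun k => ν' * kn k ^ 2 := by
    intro k
    have h0 := kn_nonneg k
    rw [abs_of_nonneg (by positivity)]
    have : kn k ^ 2 ≤ (1 + kn k) ^ 2 := by gcongr; linarith
    exact mul_le_mul_of_nonneg_left this hν
  have pol1 : Pol 1 0 fun _ : K3 => (1 : ℝ) := fun k => by simp
  have hev : ∀ k : K3, (fun _ : K3 => (1 : ℝ)) (-k) = (fun _ : K3 => (1 : ℝ)) k := fun _ => rfl
  have hrap : ∀ t ∈ Ico 0 T, RapV (co (u t)) := fun t ht => rapV_co fun i => hu.sp ht i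
  have hdv : ∀ t ∈ Ico 0 T, ∀ k, dp (kc k) (co (u t) k) = 0 := fun t ht =>
    dp_co (fun i => hu.sp ht i) (hu.divfree t ht)
  have pg1 : PG fun _ : K3 => (1 : ℝ) := ⟨1, 0, pol1⟩
  -- the energy
  have hEt : ∀ t ∈ Ico 0 T, nt (fun _ => 1) (co (u t)) ≤ E := by
    intro t ht
    rcases ht.1.eq_or_lt with h | h
    · rw [← h]; exact hE
    obtain ⟨hc1, hd1⟩ := nt_deriv hη hΛ0 polD pol1 hev hu h ht.2
    have hanti : AntitoneOn (fun s => nt (fun _ => 1) (co (u s))) (Icc 0 t) := by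
      refine antitoneOn_of_deriv_nonpos (convex_Icc 0 t) hc1 ?_ ?_
      · intro s hs
        rw [interior_Icc] at hs
        exact (hd1 s hs).differentiableAt.differentiableWithinAt
      · intro s hs
        rw [interior_Icc] at hs
        have hsT : s ∈ Ico 0 T := ⟨hs.1.le, hs.2.trans ht.2⟩
        rw [(hd1 s hs).deriv, T3s_one hη (hrap s hsT) (hdv s hsT)]
        have h8 : 0 ≤ nt (fun k => 1 * (ν' * kn k ^ 2)) (co (u s)) :=
          nt_nonneg fun k => by have := kn_nonneg k; positivity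
        simp only [Complex.zero_re, mul_zero, sub_zero]
        linarith
    exact (hanti ⟨le_rfl, h.le⟩ ⟨h.le, le_rfl⟩ h.le).trans hE
  -- the initial value
  have hF0 : ∀ hT : 0 < T, nt (Wk B a K) (co (u 0)) ≤ E + a ^ B.card / (N : ℝ) ^ 2 * G := by
    intro hT
    have h0T : (0 : ℝ) ∈ Ico 0 T := ⟨le_rfl, hT⟩
    have pg2 : PG fun k : K3 => a ^ B.card / (N : ℝ) ^ 2 * kn k ^ 2 :=
      (PG.of_le (w := fun _ : K3 => a ^ B.card / (N : ℝ) ^ 2) (C := |a ^ B.card / (N : ℝ) ^ 2|)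
        fun k => le_rfl).mul_kn 2
    have pg3 : PG fun k : K3 => kn k ^ 2 := by
      have := pg1.mul_kn 2
      simpa using this
    have h4 := nt_mono (hrap 0 h0T) (Wk_pg (B := B) ha hK1) (pg1.add pg2) fun k =>
      Wk_le (K := K) hN ha hB1 (by linarith) k
    refine h4.trans ?_
    have h5 : nt (fun k => 1 + a ^ B.card / (N : ℝ) ^ 2 * kn k ^ 2) (co (u 0))
        = nt (fun _ => 1) (co (u 0))
          + a ^ B.card / (N : ℝ) ^ 2 * nt (fun k => kn k ^ 2) (co (u 0)) := by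
      unfold nt
      rw [← tsum_mul_left, ← (pg1.smq (hrap 0 h0T)).tsum_add ((pg3.smq (hrap 0 h0T)).mul_left _)]
      refine tsum_congr fun k => ?_
      ring
    rw [h5]
    gcongr
  -- the source
  set φ : ℝ → ℝ := fun t => 2 * ∑ n ∈ Finset.range (4 * N ^ 2), dl B a n * g (n + 1) t with hφ
  have hterm : ∀ n, (∀ t, 0 ≤ dl B a n * g (n + 1) t) ∧
      IntegrableOn (fun t => dl B a n * g (n + 1) t) (Ioo 0 T) ∧
      ∫ t in Ioo 0 T, dl B a n * g (n + 1) t ≤ dl B a n * I := by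
    intro n
    have hd := dl_nonneg (B := B) ha n
    by_cases h : n + 1 ∈ B
    · refine ⟨fun t => mul_nonneg hd (hg0 _ h t), (hgi _ h).const_mul _, ?_⟩
      rw [integral_const_mul]
      exact mul_le_mul_of_nonneg_left (hgI _ h) hd
    · rw [dl_zero h]
      simp
  have hφ0 : ∀ t, 0 ≤ φ t := fun t =>
    mul_nonneg zero_le_two (Finset.sum_nonneg fun n _ => (hterm n).1 t)
  have hφi : IntegrableOn φ (Ioo 0 T) :=
    (integrable_finsetSum _ fun n _ => (hterm n).2.1).const_mul 2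
  have hφI : ∫ t in Ioo 0 T, φ t ≤ 2 * a ^ B.card * I := by
    rw [hφ, integral_const_mul, integral_finsetSum _ fun n _ => (hterm n).2.1]
    have h4 : ∑ n ∈ Finset.range (4 * N ^ 2), ∫ t in Ioo 0 T, dl B a n * g (n + 1) t
        ≤ ∑ n ∈ Finset.range (4 * N ^ 2), dl B a n * I :=
      Finset.sum_le_sum fun n _ => (hterm n).2.2
    rw [← Finset.sum_mul] at h4
    have h5 := mul_le_mul_of_nonneg_right (sum_dl (N := N) (B := B) ha) hI
    linarith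
  intro t ht
  have hT : 0 < T := ht.1.trans_lt ht.2
  rcases ht.1.eq_or_lt with h | h
  · rw [← h]
    have : 0 ≤ 2 * a ^ B.card * I := by positivity
    linarith [hF0 hT]
  obtain ⟨hc1, hd1⟩ := nt_deriv hη hΛ0 polD polW Wk_neg hu h ht.2
  have hbar := barrier (φ := φ) (Fs := 3 * E) hc1 hd1 (fun τ hτ hFτ => ?_)
    (hφi.mono_set (Ioo_subset_Ioo_right ht.2.le)) hφ0 ?_ t ⟨h.le, le_rfl⟩
  · exact hbar.le
  · have hτT : τ ∈ Ioo 0 T := ⟨hτ.1, hτ.2.trans ht.2⟩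
    have hτI : τ ∈ Ico 0 T := ⟨hτ.1.le, hτT.2⟩
    have hm := main_ineq (K := K) (lam := lam) (U := co (u τ)) (ν' := ν') (g := fun n => g n τ)
      hη hH (hrap τ hτI) (hdv τ hτI) hN ha hB1 hB2 hS1 hS hK hL hl hδ hc hν (hEt τ hτI) hFτ h1 h2
      h3 h4 hδν (hflux τ hτT)
    have e : nt (fun k => Wk B a K k * (ν' * kn k ^ 2)) (co (u τ)) = ν' * Zd B a K (co (u τ)) := by
      unfold Zd nt
      rw [← tsum_mul_left]
      refine tsum_congr fun k => ?_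
      ring
    rw [e]
    exact hm
  · have h6 : ∫ τ in Ioo 0 t, φ τ ≤ ∫ τ in Ioo 0 T, φ τ :=
        setIntegral_mono_set hφi (Eventually.of_forall fun t => hφ0 t)
          (LE.le.eventuallyLE (Ioo_subset_Ioo_right ht.2.le))
    linarith [hF0 hT]

end Pool.Agent.H226.SW
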