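import Pool.Agent.H226.OF.Ode

/-!
The choice of the parameters.
-/

open MeasureTheory Set Filter Topology
open scoped ENNReal
open H459R3.NS Pool.Agent.X96.HT Pool.Agent.X96.DM

namespace Pool.Agent.H226.SW

variable {η : Md → Md → Md → ℝ} {U : K3 → C3} {H : ℝ} {B : Finset ℕ}

lemma hp_small {lam : ℝ} (hl : lam ≤ 1) (h0 : U 0 = 0) : hp lam U = hp 0 U := by
  funext k
  unfold hp
  rw [if_pos (kn_nonneg k)]
  by_cases hk : k = 0
  · subst hk
    rw [h0]
    split_ifs <;> rfl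
  · rw [if_pos (hl.trans (one_le_kn hk))]

lemma exp_sub_one_le {x : ℝ} (h0 : 0 ≤ x) (h1 : x ≤ 1) : Real.exp x - 1 ≤ 2 * x := by
  have h2 := Real.abs_exp_sub_one_le (x := x) (by rw [abs_of_nonneg h0]; exact h1)
  rw [abs_of_nonneg h0] at h2
  exact (le_abs_self _).trans h2

/-- The criterion for the Fourier coefficients. -/
theorem crit_core (hη : IsWeight η) (hH : ∀ a b c, |η a b c| ≤ H) (hH1 : 1 ≤ H) {ν' c E : ℝ}
    (hν : 0 < ν') (hc0 : 0 ≤ c) (hc1 : c < 1) (hE : 0 < E) :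
    ∃ κ : ℝ, 0 < κ ∧ ∀ G : ℝ, 0 ≤ G → ∀ N : ℕ, (1 + G) / κ ≤ (N : ℝ) ^ (3 / 4 : ℝ) →
      ∀ B : Finset ℕ, B.Nonempty →
      (∀ n ∈ B, N ^ 2 < n) → (∀ n ∈ B, n ≤ 4 * N ^ 2) → ∀ lam : ℝ, 0 ≤ lam →
      lam ^ (5 / 2 : ℝ) * Real.log N ≤ κ * B.card → lam * N * Real.log N ≤ κ * B.card →
      ∀ L : ℝ, (N : ℝ) ^ (5 / 4 : ℝ) / κ ≤ L → ∀ (T : ℝ) (u : ℝ → V → V), IsSolD η (fun k => ν' * kn k ^ 2) {0}ᶜ (Ico 0 T) u →
      nt (fun _ => 1) (co (u 0)) ≤ E → nt (fun k => kn k ^ 2) (co (u 0)) ≤ G →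
      ∀ g : ℕ → ℝ → ℝ, (∀ n ∈ B, ∀ t, 0 ≤ g n t) → (∀ n ∈ B, IntegrableOn (g n) (Ioo 0 T)) →
      (∀ n ∈ B, ∫ t in Ioo 0 T, g n t ≤ κ * (N : ℝ) ^ (-(5 / 4) : ℝ)) →
      (∀ t ∈ Ioo 0 T, ∀ n ∈ B,
        -(2 * Real.pi * (T3s (fw η (ix n) (hp lam (lp L (co (u t)))))).re)
        ≤ c * (ν' * nt (fun k => ix n k * kn k ^ 2) (co (u t))) + g n t) →
      ∀ t ∈ Ico 0 T, nt (fun k => kn k ^ 2) (co (u t)) ≤ (N : ℝ) ^ (5 / 2 : ℝ) / κ := by
  have hpi := Real.pi_pos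
  set δ : ℝ := (1 - c) * ν' / (6 * Real.pi) with hδ
  have hδ0 : 0 < δ := by
    have : 0 < 1 - c := by linarith
    positivity
  have hδν : 6 * Real.pi * δ ≤ (1 - c) * ν' := by
    rw [hδ]
    field_simp
    exact le_rfl
  set A : ℝ := Real.sqrt (16 + 8 * 8748 * H * Real.sqrt 864 * Real.sqrt E / δ) with hA
  have hA2 : A ^ 2 = 16 + 8 * 8748 * H * Real.sqrt 864 * Real.sqrt E / δ :=
    Real.sq_sqrt (by positivity)
  have hA4 : 4 ≤ A := by
    rw [hA]
    refine Real.le_sqrt_of_sq_le ?_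
    have : 0 ≤ 8 * 8748 * H * Real.sqrt 864 * Real.sqrt E / δ := by positivity
    linarith
  set A₁ : ℝ := 8 * 8748 ^ 2 * 81 * H ^ 2 * E / δ ^ 2 with hA₁
  have hA₁0 : 0 < A₁ := by positivity
  set κ : ℝ := min (min (1 / 38) (δ / (17496 * H * Real.sqrt 27 * Real.sqrt E * 19)))
    (min (min (E / (4 * (1 + A₁ * A))) (1 / (1 + A₁ * A)))
      (min (1 / (3 * A ^ 2 * E)) (1 / A))) with hκ
  have hA0 : 0 < A := by linarith
  have hκ0 : 0 < κ := by positivity
  have k1 : κ ≤ 1 / 38 := (min_le_left _ _).trans (min_le_left _ _)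
  have k2 : 17496 * H * Real.sqrt 27 * Real.sqrt E * 19 * κ ≤ δ := by
    have h1 : κ ≤ δ / (17496 * H * Real.sqrt 27 * Real.sqrt E * 19) :=
      (min_le_left _ _).trans (min_le_right _ _)
    rwa [le_div_iff₀ (by positivity), mul_comm] at h1
  have k3 : 4 * (1 + A₁ * A) * κ ≤ E := by
    have h1 : κ ≤ E / (4 * (1 + A₁ * A)) :=
      (min_le_right _ _).trans ((min_le_left _ _).trans (min_le_left _ _))
    rwa [le_div_iff₀ (by positivity), mul_comm] at h1
  have k6 : 1 + A₁ * A ≤ 1 / κ := by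
    have h1 : κ ≤ 1 / (1 + A₁ * A) :=
      (min_le_right _ _).trans ((min_le_left _ _).trans (min_le_right _ _))
    rw [le_div_iff₀ (by positivity)] at h1 ⊢
    linarith
  have k4 : 3 * A ^ 2 * E ≤ 1 / κ := by
    have h1 : κ ≤ 1 / (3 * A ^ 2 * E) :=
      (min_le_right _ _).trans ((min_le_right _ _).trans (min_le_left _ _))
    rw [le_div_iff₀ (by positivity)] at h1 ⊢
    linarith
  have k5 : A ≤ 1 / κ := by
    have h1 : κ ≤ 1 / A :=
      (min_le_right _ _).trans ((min_le_right _ _).trans (min_le_right _ _))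
    rw [le_div_iff₀ (by positivity)] at h1 ⊢
    linarith
  clear_value κ
  refine ⟨κ, hκ0, fun G hG0 N hN B hBn hB1 hB2 lam hlam hl1 hl2 L hL T u hu hE0 hG g hg0
    hgi hgI hflux => ?_⟩
  have hNk : 1 / κ ≤ (N : ℝ) ^ (3 / 4 : ℝ) := by
    refine le_trans ?_ hN
    gcongr
    linarith
  have hN1 : 1 + A₁ * A ≤ (N : ℝ) ^ (3 / 4 : ℝ) := k6.trans hNk
  have hN2 : 2 * (1 + A₁ * A) * |G| / E ≤ (N : ℝ) ^ (3 / 4 : ℝ) := by
    refine le_trans ?_ hN
    rw [abs_of_nonneg hG0, div_le_div_iff₀ hE hκ0]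
    have h1 : G * (4 * (1 + A₁ * A) * κ) ≤ G * E := by gcongr
    have h2 : 0 ≤ G * E := by positivity
    linarith
  have hN3 : 3 ≤ N := by
    by_contra hcon
    have h1 : N ≤ 2 := by omega
    have h2 : (N : ℝ) ≤ 2 := by exact_mod_cast h1
    have h3 : (N : ℝ) ^ (3 / 4 : ℝ) ≤ (2 : ℝ) ^ (3 / 4 : ℝ) :=
      Real.rpow_le_rpow (Nat.cast_nonneg _) h2 (by norm_num)
    have h4 : (2 : ℝ) ^ (3 / 4 : ℝ) ≤ (2 : ℝ) ^ (1 : ℝ) :=
      Real.rpow_le_rpow_of_exponent_le (by norm_num) (by norm_num)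
    rw [Real.rpow_one] at h4
    have h5 : 38 ≤ 1 / κ := by
      rw [le_div_iff₀ hκ0]
      linarith
    linarith
  have hNpos : 0 < N := by omega
  have hN3' : (3 : ℝ) ≤ N := by exact_mod_cast hN3
  have hN0 : (0 : ℝ) < N := by linarith
  have hlog : 1 ≤ Real.log N := by
    rw [Real.le_log_iff_exp_le hN0]
    exact Real.exp_one_lt_three.le.trans hN3'
  have hcard : 0 < (B.card : ℝ) := by exact_mod_cast hBn.card_pos
  have hcard3 : (B.card : ℝ) ≤ 3 * N ^ 2 := by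
    have h1 : B ⊆ Finset.Ioc (N ^ 2) (4 * N ^ 2) := fun n hn =>
      Finset.mem_Ioc.2 ⟨hB1 n hn, hB2 n hn⟩
    have h2 := Finset.card_le_card h1
    rw [Nat.card_Ioc] at h2
    have h3 : B.card ≤ 3 * N ^ 2 := by omega
    exact_mod_cast h3
  set y : ℝ := (N : ℝ) ^ (5 / 4 : ℝ) with hy
  have hy0 : 0 < y := by positivity
  have hyN : (N : ℝ) ≤ y := by
    have := Real.rpow_le_rpow_of_exponent_le (x := (N : ℝ)) (by linarith) (y := 1) (z := 5 / 4)
      (by norm_num)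
    rwa [Real.rpow_one] at this
  have hy2 : y ^ 2 = (N : ℝ) ^ (5 / 2 : ℝ) := by
    rw [hy, ← Real.rpow_natCast, ← Real.rpow_mul hN0.le]
    norm_num
  have hy4 : y ^ 4 = (N : ℝ) ^ 5 := by
    rw [hy, ← Real.rpow_natCast, ← Real.rpow_mul hN0.le, ← Real.rpow_natCast (N : ℝ) 5]
    norm_num
  have hyy : y * (N : ℝ) ^ (-(5 / 4) : ℝ) = 1 := by
    rw [hy, ← Real.rpow_add hN0]
    norm_num
  have hy34 : y * (N : ℝ) ^ (3 / 4 : ℝ) = (N : ℝ) ^ 2 := by
    rw [hy, ← Real.rpow_add hN0, ← Real.rpow_natCast (N : ℝ) 2]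
    norm_num
  set K : ℝ := A * y with hK
  have hK4 : 4 * (N : ℝ) ≤ K := by
    rw [hK]
    gcongr
  have hK0 : 0 < K := by positivity
  have hKL : K ≤ L := by
    refine le_trans ?_ hL
    rw [hK, div_eq_mul_one_div, mul_comm]
    gcongr
  have hL4 : 4 * (N : ℝ) ≤ L := hK4.trans hKL
  set M : ℝ := 1 + A₁ * K with hM
  have hM1 : 1 ≤ M := by
    have : 0 ≤ A₁ * K := by positivity
    linarith
  have hMy : M ≤ (1 + A₁ * A) * y := by
    have h1 : 1 ≤ y := by linarith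
    have e : (1 + A₁ * A) * y = y + A₁ * (A * y) := by ring
    rw [hM, hK, e]
    linarith
  have hMN : M ≤ (N : ℝ) ^ 2 := by
    calc M ≤ (1 + A₁ * A) * y := hMy
      _ ≤ (N : ℝ) ^ (3 / 4 : ℝ) * y := by gcongr
      _ = _ := by rw [mul_comm, hy34]
  set x : ℝ := Real.log M / B.card with hx
  have hlM : 0 ≤ Real.log M := Real.log_nonneg hM1
  have hx0 : 0 ≤ x := by positivity
  set a : ℝ := Real.exp x with ha
  have ha1 : 1 ≤ a := Real.one_le_exp hx0
  have haM : a ^ B.card = M := by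
    rw [ha, ← Real.exp_nat_mul, hx, mul_div_cancel₀ _ hcard.ne', Real.exp_log (by linarith)]
  have hlM2 : Real.log M ≤ 2 * Real.log N := by
    have h1 := Real.log_le_log (by linarith) hMN
    rwa [Real.log_pow, Nat.cast_ofNat] at h1
  have c1 : 8748 * H * (Real.sqrt (27 * (2 * N) ^ 5) * Real.sqrt E) ≤ δ / 2 * (K / 2) ^ 2 := by
    have e1 : Real.sqrt (27 * (2 * (N : ℝ)) ^ 5) = Real.sqrt 864 * y ^ 2 := by
      rw [show 27 * (2 * (N : ℝ)) ^ 5 = 864 * (y ^ 2) ^ 2 by rw [← pow_mul, hy4]; ring,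
        Real.sqrt_mul (by norm_num), Real.sqrt_sq (by positivity)]
    rw [e1, hK]
    have e2 : δ / 2 * (A * y / 2) ^ 2 = δ / 8 * A ^ 2 * y ^ 2 := by ring
    rw [e2, hA2]
    have e3 : δ / 8 * (16 + 8 * 8748 * H * Real.sqrt 864 * Real.sqrt E / δ) * y ^ 2
        = 2 * δ * y ^ 2 + 8748 * H * (Real.sqrt 864 * y ^ 2 * Real.sqrt E) := by
      field_simp
      ring
    rw [e3]
    have : 0 ≤ 2 * δ * y ^ 2 := by positivity
    linarith
  have c2 : 8748 * H * (Real.sqrt (27 * (K ^ 2 / a ^ B.card)) * Real.sqrt (3 * E))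
      ≤ δ / 2 * Real.sqrt (K / 2) := by
    rw [haM, ← Real.sqrt_mul (by positivity)]
    have h1 : 27 * (K ^ 2 / M) * (3 * E) ≤ (δ / (2 * (8748 * H))) ^ 2 * (K / 2) := by
      have h2 : A₁ * K ≤ M := by linarith
      have h3 : 27 * (K ^ 2 / M) * (3 * E) ≤ 27 * (K ^ 2 / (A₁ * K)) * (3 * E) := by gcongr
      refine h3.trans (le_of_eq ?_)
      rw [hA₁]
      field_simp
      ring
    have h2 := Real.sqrt_le_sqrt h1
    rw [Real.sqrt_mul (by positivity) (K / 2), Real.sqrt_sq (by positivity)] at h2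
    calc 8748 * H * Real.sqrt (27 * (K ^ 2 / M) * (3 * E))
        ≤ 8748 * H * (δ / (2 * (8748 * H)) * Real.sqrt (K / 2)) := by gcongr
      _ = _ := by field_simp
  have c4 : 8748 * H * (Real.sqrt (27 * (2 * N) ^ 5) * Real.sqrt E) / L ^ 2 ≤ δ := by
    have hL0 : 0 < L := by linarith
    rw [div_le_iff₀ (by positivity)]
    have h1 : K ^ 2 ≤ L ^ 2 := by gcongr
    have h2 : δ / 2 * (K / 2) ^ 2 = δ / 8 * K ^ 2 := by ring
    have h3 : δ / 8 * K ^ 2 ≤ δ / 8 * L ^ 2 := by gcongr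
    have h4 : 0 ≤ δ / 8 * L ^ 2 := by positivity
    linarith
  have hI0 : 0 ≤ κ * (N : ℝ) ^ (-(5 / 4) : ℝ) := by positivity
  have c3 : E + a ^ B.card / (N : ℝ) ^ 2 * G + 2 * a ^ B.card * (κ * (N : ℝ) ^ (-(5 / 4) : ℝ))
      < 3 * E := by
    rw [haM]
    have h1 : M / (N : ℝ) ^ 2 * G ≤ E / 2 := by
      have h2 : 2 * (1 + A₁ * A) * |G| ≤ (N : ℝ) ^ (3 / 4 : ℝ) * E := by
        rwa [div_le_iff₀ hE] at hN2
      rw [div_mul_eq_mul_div, div_le_iff₀ (by positivity), ← hy34]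
      calc M * G ≤ M * |G| := by gcongr; exact le_abs_self G
        _ ≤ (1 + A₁ * A) * y * |G| := by gcongr
        _ = (2 * (1 + A₁ * A) * |G|) * (y / 2) := by ring
        _ ≤ ((N : ℝ) ^ (3 / 4 : ℝ) * E) * (y / 2) := by gcongr
        _ = _ := by ring
    have h3 : 2 * M * (κ * (N : ℝ) ^ (-(5 / 4) : ℝ)) ≤ E / 2 := by
      calc 2 * M * (κ * (N : ℝ) ^ (-(5 / 4) : ℝ))
          ≤ 2 * ((1 + A₁ * A) * y) * (κ * (N : ℝ) ^ (-(5 / 4) : ℝ)) := by gcongr
        _ = 2 * (1 + A₁ * A) * κ * (y * (N : ℝ) ^ (-(5 / 4) : ℝ)) := by ring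
        _ ≤ E / 2 := by rw [hyy, mul_one]; linarith
    linarith
  have hfin : ∀ (lam' S : ℝ), 1 ≤ S → 4 * N ^ 2 * (a - 1) ≤ S → S * (lam' / N) ≤ 1 / 2 →
      17496 * H * S / N ^ 2 * (Real.sqrt (27 * lam' ^ 5) * Real.sqrt E) ≤ δ →
      (∀ t ∈ Ico 0 T, hp lam (lp L (co (u t))) = hp lam' (lp L (co (u t)))) →
      ∀ t ∈ Ico 0 T, nt (fun k => kn k ^ 2) (co (u t)) ≤ (N : ℝ) ^ (5 / 2 : ℝ) / κ := by
    intro lam' S hS1 hS hl h3 hhp t ht
    have h4 := core_bound (K := K) (lam := lam') hη hH (by simp) hu hNpos ha1 hB1 hB2 hS1 hS hK4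
      hL4 hl hδ0.le hc0 hν.le hI0 hE0 hG c1 c2 h3 c4 hδν hg0 hgi hgI c3 (fun t ht n hn => by
        rw [← hhp t ⟨ht.1.le, ht.2⟩]; exact hflux t ht n hn) t ht
    have hrap : RapV (co (u t)) := rapV_co fun i => hu.sp ht i
    have pgk : PG fun k : K3 => kn k ^ 2 := by
      have h1 : PG fun _ : K3 => (1 : ℝ) := PG.of_le (C := 1) fun k => by simp
      have := h1.mul_kn 2
      simpa using this
    have pgW : PG fun k : K3 => K ^ 2 * Wk B a K k := by
      obtain ⟨C, m, hC⟩ := Wk_pg (B := B) ha1 (by linarith : 1 ≤ K)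
      refine ⟨K ^ 2 * C, m, fun k => ?_⟩
      rw [abs_mul, abs_of_nonneg (by positivity : 0 ≤ K ^ 2), mul_assoc]
      exact mul_le_mul_of_nonneg_left (hC k) (by positivity)
    have h5 : nt (fun k => kn k ^ 2) (co (u t)) ≤ nt (fun k => K ^ 2 * Wk B a K k) (co (u t)) :=
      nt_mono hrap pgk pgW fun k => kn_sq_le ha1 hB2 hNpos (by linarith) k
    have h6 : nt (fun k => K ^ 2 * Wk B a K k) (co (u t)) = K ^ 2 * nt (Wk B a K) (co (u t)) := by
      unfold nt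
      rw [← tsum_mul_left]
      exact tsum_congr fun k => by ring
    rw [h6] at h5
    calc nt (fun k => kn k ^ 2) (co (u t)) ≤ K ^ 2 * nt (Wk B a K) (co (u t)) := h5
      _ ≤ K ^ 2 * (3 * E) := by gcongr
      _ = 3 * A ^ 2 * E * y ^ 2 := by rw [hK]; ring
      _ ≤ 1 / κ * y ^ 2 := by gcongr
      _ = _ := by rw [hy2]; ring
  rcases lt_or_ge lam 1 with hlt | hge
  · -- no frequencies are removed
    refine hfin 0 (max 1 (4 * N ^ 2 * (a - 1))) (le_max_left _ _) (le_max_right _ _) (by simp)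
      (by simp [hδ0.le]) fun t ht => hp_small hlt.le (by
        unfold lp
        rw [hu.supp t ht 0 (by simp)]
        split_ifs <;> rfl)
  · have hκB : κ * B.card ≤ 3 * κ * N ^ 2 := by
      calc κ * B.card ≤ κ * (3 * N ^ 2) := by gcongr
        _ = _ := by ring
    -- the size of the jumps
    have hx1 : x ≤ 1 := by
      rw [hx, div_le_one hcard]
      have h2 : Real.log N ≤ lam * N * Real.log N :=
        le_mul_of_one_le_left (by linarith)
          (one_le_mul_of_one_le_of_one_le hge (by linarith))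
      have h3 : κ * B.card ≤ 1 / 38 * B.card := by gcongr
      linarith
    have ha2 : a - 1 ≤ 4 * Real.log N / B.card := by
      have h1 := exp_sub_one_le hx0 hx1
      refine h1.trans ?_
      rw [hx, ← mul_div_assoc, div_le_div_iff_of_pos_right hcard]
      linarith
    set S : ℝ := 1 + 16 * N ^ 2 * Real.log N / B.card with hS
    have hS1 : 1 ≤ S := by
      have : 0 ≤ 16 * (N : ℝ) ^ 2 * Real.log N / B.card := by positivity
      linarith
    refine hfin lam S hS1 ?_ ?_ ?_ fun t _ => rfl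
    · calc 4 * (N : ℝ) ^ 2 * (a - 1) ≤ 4 * (N : ℝ) ^ 2 * (4 * Real.log N / B.card) := by gcongr
        _ = 16 * N ^ 2 * Real.log N / B.card := by ring
        _ ≤ S := by rw [hS]; linarith
    · have e : S * (lam / N) = lam / N + 16 * (lam * N * Real.log N) / B.card := by
        rw [hS]; field_simp
      rw [e]
      have h1 : lam / N ≤ 3 * κ := by
        rw [div_le_iff₀ hN0]
        have h2 : lam * N ≤ lam * N * Real.log N :=
          le_mul_of_one_le_right (by positivity) hlog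
        have h3 : lam * N ≤ 3 * κ * N * N := by linarith
        exact le_of_mul_le_mul_right h3 hN0
      have h2 : 16 * (lam * N * Real.log N) / B.card ≤ 16 * κ := by
        rw [div_le_iff₀ hcard]
        linarith
      linarith
    · have e1 : Real.sqrt (27 * lam ^ 5) = Real.sqrt 27 * lam ^ (5 / 2 : ℝ) := by
        rw [Real.sqrt_mul (by norm_num)]
        congr 1
        rw [Real.sqrt_eq_rpow, ← Real.rpow_natCast, ← Real.rpow_mul hlam]
        norm_num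
      set z : ℝ := lam ^ (5 / 2 : ℝ) with hz
      have hz0 : 0 ≤ z := by positivity
      rw [e1]
      have h1 : S / N ^ 2 * z ≤ 19 * κ := by
        have e : S / (N : ℝ) ^ 2 * z = z / N ^ 2 + 16 * (z * Real.log N) / B.card := by
          rw [hS]; field_simp
        rw [e]
        have h2 : z / (N : ℝ) ^ 2 ≤ 3 * κ := by
          rw [div_le_iff₀ (by positivity)]
          have h3 : z ≤ z * Real.log N := le_mul_of_one_le_right hz0 hlog
          linarith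
        have h3 : 16 * (z * Real.log N) / B.card ≤ 16 * κ := by
          rw [div_le_iff₀ hcard]
          linarith
        linarith
      calc 17496 * H * S / N ^ 2 * (Real.sqrt 27 * z * Real.sqrt E)
          = 17496 * H * Real.sqrt 27 * Real.sqrt E * (S / N ^ 2 * z) := by ring
        _ ≤ 17496 * H * Real.sqrt 27 * Real.sqrt E * (19 * κ) := by gcongr
        _ = 17496 * H * Real.sqrt 27 * Real.sqrt E * 19 * κ := by ring
        _ ≤ δ := k2

end Pool.Agent.H226.SW
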