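import Pool.Agent.H226.OF.Sum

/-!
The ramp in one octave and the nonlocal triads.
-/

open MeasureTheory Set Filter Topology
open scoped ENNReal
open H459R3.NS Pool.Agent.X96.HT Pool.Agent.X96.DM

namespace Pool.Agent.H226.SW

variable {η : Md → Md → Md → ℝ} {U : K3 → C3} {k p q : K3} {H : ℝ} {N : ℕ} {lam : ℝ}

/-- the square of the length as a natural number -/
def nk (k : K3) : ℕ := (∑ j, (k j) ^ 2).toNat

lemma nk_cast (k : K3) : (nk k : ℝ) = kn k ^ 2 := by
  rw [kn_sq]
  unfold nk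
  have h : 0 ≤ ∑ j, (k j) ^ 2 := Finset.sum_nonneg fun _ _ => sq_nonneg _
  have h2 : (((∑ j, (k j) ^ 2).toNat : ℤ) : ℝ) = ((∑ j, (k j) ^ 2 : ℤ) : ℝ) := by
    rw [Int.toNat_of_nonneg h]
  have h3 : (((∑ j, (k j) ^ 2).toNat : ℕ) : ℝ) = (((∑ j, (k j) ^ 2).toNat : ℤ) : ℝ) := by
    push_cast; rfl
  rw [h3, h2]
  push_cast
  rfl

lemma nk_mono {k p : K3} (h : kn k ≤ kn p) : nk k ≤ nk p := by
  have h0 := kn_nonneg k
  have h1 : (nk k : ℝ) ≤ nk p := by
    rw [nk_cast, nk_cast]
    gcongr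
  exact_mod_cast h1

lemma nk_neg (k : K3) : nk (-k) = nk k := by unfold nk; simp

/-- the number of the elements of `B` up to `m` -/
def be (B : Finset ℕ) (m : ℕ) : ℕ := (B.filter fun n => n ≤ m).card

lemma be_mono (B : Finset ℕ) {m n : ℕ} (h : m ≤ n) : be B m ≤ be B n :=
  Finset.card_le_card fun x hx => by
    rw [Finset.mem_filter] at hx ⊢
    exact ⟨hx.1, hx.2.trans h⟩

lemma be_le (B : Finset ℕ) (m : ℕ) : be B m ≤ B.card := Finset.card_le_card (Finset.filter_subset _ _)

lemma be_zero {B : Finset ℕ} {m : ℕ} (h : ∀ n ∈ B, m < n) : be B m = 0 := by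
  unfold be
  rw [Finset.card_eq_zero, Finset.filter_eq_empty_iff]
  exact fun n hn => not_le.2 (h n hn)

lemma be_all {B : Finset ℕ} {m : ℕ} (h : ∀ n ∈ B, n ≤ m) : be B m = B.card := by
  unfold be
  rw [Finset.filter_true_of_mem h]

/-- the ramp -/
noncomputable def rb (B : Finset ℕ) (a : ℝ) (k : K3) : ℝ := a ^ be B (nk k)

section

variable {B : Finset ℕ} {a S : ℝ}

lemma be_diff (hB : ∀ n ∈ B, n ≤ 4 * N ^ 2) {k p : K3} (h : kn k ≤ kn p) :
    (be B (nk p) : ℝ) ≤ be B (nk k) + 4 * N * (kn p - kn k) := by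
  have h0 := kn_nonneg k
  have h1 : be B (nk p) ≤ be B (nk k) + (min (nk p) (4 * N ^ 2) - min (nk k) (4 * N ^ 2)) := by
    have e : B.filter (fun n => n ≤ nk p) ⊆ (B.filter fun n => n ≤ nk k)
        ∪ Finset.Ioc (min (nk k) (4 * N ^ 2)) (min (nk p) (4 * N ^ 2)) := by
      intro n hn
      rw [Finset.mem_filter] at hn
      rw [Finset.mem_union, Finset.mem_filter, Finset.mem_Ioc]
      rcases le_or_gt n (nk k) with h2 | h2
      · exact Or.inl ⟨hn.1, h2⟩
      · exact Or.inr ⟨(min_le_left _ _).trans_lt h2, le_min hn.2 (hB n hn.1)⟩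
    refine (Finset.card_le_card e).trans ((Finset.card_union_le _ _).trans ?_)
    rw [Nat.card_Ioc]
    exact le_rfl
  have h2 : min (nk k) (4 * N ^ 2) ≤ min (nk p) (4 * N ^ 2) := min_le_min_right _ (nk_mono h)
  have h3 : (be B (nk p) : ℝ) ≤ be B (nk k)
      + (((min (nk p) (4 * N ^ 2) : ℕ) : ℝ) - ((min (nk k) (4 * N ^ 2) : ℕ) : ℝ)) := by
    rw [← Nat.cast_sub h2]
    exact_mod_cast h1
  have h4 : ∀ q : K3, ((min (nk q) (4 * N ^ 2) : ℕ) : ℝ) = min (kn q) (2 * N) ^ 2 := by
    intro q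
    have hq := kn_nonneg q
    rw [Nat.cast_min, nk_cast]
    push_cast
    rcases le_total (kn q) (2 * N) with h5 | h5
    · rw [min_eq_left h5, min_eq_left]
      calc kn q ^ 2 ≤ (2 * N) ^ 2 := by gcongr
        _ = _ := by ring
    · rw [min_eq_right h5, min_eq_right]
      · ring
      · calc 4 * (N : ℝ) ^ 2 = (2 * N) ^ 2 := by ring
          _ ≤ _ := by gcongr
  rw [h4, h4] at h3
  have h5 : min (kn p) (2 * N) - min (kn k) (2 * N) ≤ kn p - kn k := by
    rcases le_total (kn p) (2 * (N : ℝ)) with h6 | h6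
    · rw [min_eq_left h6, min_eq_left (h.trans h6)]
    · rw [min_eq_right h6]
      rcases le_total (kn k) (2 * (N : ℝ)) with h7 | h7
      · rw [min_eq_left h7]; linarith
      · rw [min_eq_right h7]; linarith
  have h6 : min (kn p) (2 * (N : ℝ)) ≤ 2 * N := min_le_right _ _
  have h7 : min (kn k) (2 * (N : ℝ)) ≤ 2 * N := min_le_right _ _
  have h8 : 0 ≤ min (kn p) (2 * (N : ℝ)) - min (kn k) (2 * N) :=
    sub_nonneg.2 (min_le_min_right _ h)
  have h9 : min (kn p) (2 * (N : ℝ)) ^ 2 - min (kn k) (2 * N) ^ 2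
      ≤ 4 * N * (kn p - kn k) := by
    calc min (kn p) (2 * (N : ℝ)) ^ 2 - min (kn k) (2 * N) ^ 2
        = (min (kn p) (2 * (N : ℝ)) + min (kn k) (2 * N))
          * (min (kn p) (2 * (N : ℝ)) - min (kn k) (2 * N)) := by ring
      _ ≤ (2 * N + 2 * N) * (kn p - kn k) := by gcongr
      _ = _ := by ring
  linarith

/-- powers -/
lemma pow_sub_le (ha : 1 ≤ a) (m d : ℕ) : a ^ (m + d) - a ^ m ≤ d * (a - 1) * a ^ (m + d) := by
  have ha0 : 0 < a := by linarith
  have h1 : 1 + (d : ℝ) * (1 / a - 1) ≤ (1 + (1 / a - 1)) ^ d :=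
    one_add_mul_le_pow (by have : 0 ≤ 1 / a := by positivity
                           linarith) d
  have h2 : 1 + (1 / a - 1) = 1 / a := by ring
  rw [h2, div_pow, one_pow, le_div_iff₀ (by positivity)] at h1
  have h3 : (1 + (d : ℝ) * (1 / a - 1)) * a ^ d = a ^ d - d * ((a - 1) / a) * a ^ d := by
    field_simp
    ring
  rw [h3] at h1
  have h4 : (a - 1) / a ≤ a - 1 := by
    rw [div_le_iff₀ ha0]
    nlinarith
  have h5 : (d : ℝ) * ((a - 1) / a) * a ^ d ≤ d * (a - 1) * a ^ d := by gcongr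
  have h6 : a ^ d - 1 ≤ d * (a - 1) * a ^ d := by linarith
  rw [pow_add]
  calc a ^ m * a ^ d - a ^ m = a ^ m * (a ^ d - 1) := by ring
    _ ≤ a ^ m * (d * (a - 1) * a ^ d) := by gcongr
    _ = _ := by ring

lemma rb_ge (ha : 1 ≤ a) (k : K3) : 1 ≤ rb B a k := one_le_pow₀ ha

lemma rb_le (ha : 1 ≤ a) (k : K3) : rb B a k ≤ a ^ B.card := pow_le_pow_right₀ ha (be_le _ _)

lemma rb_mono (ha : 1 ≤ a) {k p : K3} (h : kn k ≤ kn p) : rb B a k ≤ rb B a p :=
  pow_le_pow_right₀ ha (be_mono B (nk_mono h))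

lemma rb_neg (k : K3) : rb B a (-k) = rb B a k := by unfold rb; rw [nk_neg]

lemma rb_pg (ha : 1 ≤ a) : PG (rb B a) := PG.of_le (C := a ^ B.card) fun k => by
  rw [abs_of_nonneg (zero_le_one.trans (rb_ge ha k))]
  exact rb_le ha k

lemma rb_one (hB : ∀ n ∈ B, N ^ 2 < n) {k : K3} (h : kn k ≤ N) : rb B a k = 1 := by
  have h0 := kn_nonneg k
  have h1 : (nk k : ℝ) ≤ ((N ^ 2 : ℕ) : ℝ) := by
    rw [nk_cast]; push_cast; gcongr
  have h2 : nk k ≤ N ^ 2 := by exact_mod_cast h1
  unfold rb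
  rw [be_zero fun n hn => h2.trans_lt (hB n hn), pow_zero]

lemma rb_two (hB : ∀ n ∈ B, n ≤ 4 * N ^ 2) {k : K3} (h : 2 * N ≤ kn k) : rb B a k = a ^ B.card := by
  have h1 : ((4 * N ^ 2 : ℕ) : ℝ) ≤ nk k := by
    rw [nk_cast]; push_cast
    calc 4 * (N : ℝ) ^ 2 = (2 * N) ^ 2 := by ring
      _ ≤ _ := by gcongr
  have h2 : 4 * N ^ 2 ≤ nk k := by exact_mod_cast h1
  unfold rb
  rw [be_all fun n hn => (hB n hn).trans h2]

lemma exp_half_le : Real.exp (1 / 2) ≤ 2 := by
  have h1 : Real.exp (1 / 2) ^ 2 = Real.exp 1 := by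
    rw [← Real.exp_nat_mul]
    norm_num
  have h2 := Real.exp_one_lt_d9
  have h3 := Real.exp_pos (1 / 2 : ℝ)
  nlinarith

/-- for nonlocal triads the weights of the two long frequencies are comparable -/
lemma rb_ratio (ha : 1 ≤ a) (hB : ∀ n ∈ B, n ≤ 4 * N ^ 2) (hS : 4 * N ^ 2 * (a - 1) ≤ S)
    (hN : 0 < N) {x : ℝ} (hx : 0 ≤ x) (h : S * (x / N) ≤ 1 / 2) {k p : K3}
    (hkp : kn p ≤ kn k + x) : rb B a p ≤ 2 * rb B a k := by
  have hN' : (0 : ℝ) < N := by exact_mod_cast hN
  have h0 := rb_ge (B := B) ha k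
  rcases le_total (kn p) (kn k) with h3 | h3
  · have := rb_mono (B := B) ha h3
    linarith
  · have h1 := be_diff hB h3
    obtain ⟨d, hd⟩ := Nat.exists_eq_add_of_le (be_mono B (nk_mono h3))
    have hd' : (d : ℝ) ≤ 4 * N * x := by
      rw [hd] at h1
      push_cast at h1
      have : 4 * (N : ℝ) * (kn p - kn k) ≤ 4 * N * x := by gcongr; linarith
      linarith
    unfold rb
    rw [hd, pow_add, mul_comm (a ^ be B (nk k))]
    have h4 : a ^ d ≤ 2 := by
      have h5 : a ≤ Real.exp (a - 1) := by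
        have := Real.add_one_le_exp (a - 1)
        linarith
      calc a ^ d ≤ Real.exp (a - 1) ^ d := by gcongr
        _ = Real.exp (d * (a - 1)) := by rw [← Real.exp_nat_mul]
        _ ≤ Real.exp (1 / 2) := by
            refine Real.exp_le_exp.2 (le_trans ?_ h)
            calc (d : ℝ) * (a - 1) ≤ (4 * N * x) * (a - 1) := by
                  have : 0 ≤ a - 1 := by linarith
                  gcongr
              _ = (4 * N ^ 2 * (a - 1)) * (x / N) := by field_simp
              _ ≤ S * (x / N) := by gcongr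
        _ ≤ 2 := exp_half_le
    gcongr

lemma rb_diff (ha : 1 ≤ a) (hB : ∀ n ∈ B, n ≤ 4 * N ^ 2) (hS : 4 * N ^ 2 * (a - 1) ≤ S)
    (hN : 0 < N) {k p q : K3} (h : k + p + q = 0) (hkp : kn k ≤ kn p) (hkq : kn k ≤ kn q) :
    |rb B a p - rb B a q| * max (kn p) (kn q) ≤ 4 * (S * max (rb B a p) (rb B a q)) * kn k := by
  have hN' : (0 : ℝ) < N := by exact_mod_cast hN
  have hk0 := kn_nonneg k
  have hS0 : 0 ≤ S := le_trans (by have : 0 ≤ a - 1 := by linarith
                                   positivity) hS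
  have t1 : kn p ≤ kn q + kn k := kn_tri (by rw [← h]; abel)
  have t2 : kn q ≤ kn k + kn p := kn_tri h
  have hmax : 0 ≤ max (rb B a p) (rb B a q) :=
    (zero_le_one.trans (rb_ge ha p)).trans (le_max_left _ _)
  by_cases h2 : 2 * (N : ℝ) ≤ kn p ∧ 2 * (N : ℝ) ≤ kn q
  · rw [rb_two hB h2.1, rb_two hB h2.2, sub_self, abs_zero, zero_mul]
    have : 0 ≤ max (a ^ B.card) (a ^ B.card) := (by positivity : 0 ≤ a ^ B.card).trans
      (le_max_left _ _)
    positivity
  have h3 : max (kn p) (kn q) ≤ 4 * N := by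
    rw [not_and_or, not_le, not_le] at h2
    rcases h2 with h2 | h2 <;> exact max_le (by linarith) (by linarith)
  have key : ∀ x y : K3, kn x ≤ kn y → kn y - kn x ≤ kn k →
      rb B a y - rb B a x ≤ (4 * N * kn k) * (a - 1) * rb B a y := by
    intro x y hxy hd
    obtain ⟨d, hd'⟩ := Nat.exists_eq_add_of_le (be_mono B (nk_mono hxy))
    have h1 := be_diff hB hxy
    rw [hd'] at h1
    push_cast at h1
    have h4 : (d : ℝ) ≤ 4 * N * kn k := by
      have : 4 * (N : ℝ) * (kn y - kn x) ≤ 4 * N * kn k := by gcongr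
      linarith
    unfold rb
    rw [hd']
    refine (pow_sub_le ha _ _).trans ?_
    have : 0 ≤ a - 1 := by linarith
    gcongr
  have h4 : |rb B a p - rb B a q| ≤ (4 * N * kn k) * (a - 1) * max (rb B a p) (rb B a q) := by
    have ha1 : 0 ≤ a - 1 := by linarith
    rcases le_total (kn q) (kn p) with h5 | h5
    · have h6 := key q p h5 (by linarith)
      have h7 := rb_mono (B := B) ha h5
      rw [max_eq_left h7, abs_of_nonneg (by linarith)]
      exact h6
    · have h6 := key p q h5 (by linarith)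
      have h7 := rb_mono (B := B) ha h5
      rw [max_eq_right h7, abs_sub_comm, abs_of_nonneg (by linarith)]
      exact h6
  have h5 : 0 ≤ max (kn p) (kn q) := (kn_nonneg p).trans (le_max_left _ _)
  have ha1 : 0 ≤ a - 1 := by linarith
  calc |rb B a p - rb B a q| * max (kn p) (kn q)
      ≤ ((4 * N * kn k) * (a - 1) * max (rb B a p) (rb B a q)) * (4 * N) := by gcongr
    _ = 4 * ((4 * N ^ 2 * (a - 1)) * max (rb B a p) (rb B a q)) * kn k := by ring
    _ ≤ _ := by gcongr

end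

/-- the high frequencies of the field -/
noncomputable def hp (lam : ℝ) (U : K3 → C3) (k : K3) : C3 := if lam ≤ kn k then U k else 0

lemma hp_div (hdiv : ∀ k, dp (kc k) (U k) = 0) (k : K3) : dp (kc k) (hp lam U k) = 0 := by
  unfold hp
  split_ifs
  · exact hdiv k
  · unfold dp; simp

lemma hp_real (hreal : ∀ k, U (-k) = cj (U k)) (k : K3) : hp lam U (-k) = cj (hp lam U k) := by
  unfold hp
  rw [kn_neg]
  split_ifs
  · exact hreal k
  · funext i; simp [cj]

lemma norm_hp_le (k : K3) : ‖hp lam U k‖ ≤ ‖U k‖ := by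
  unfold hp
  split_ifs
  · exact le_rfl
  · rw [norm_zero]; exact norm_nonneg _

lemma hp_rap (hU : RapV U) : RapV (hp lam U) := fun n =>
  Summable.of_nonneg_of_le (fun k => by have := kn_nonneg k; positivity)
    (fun k => by
      have := kn_nonneg k
      have := norm_hp_le (lam := lam) (U := U) k
      gcongr) (hU n)

lemma par_zero_vec (s : Bool) (k : K3) : par s k 0 = 0 := by
  unfold par
  split_ifs
  · rfl
  · funext j
    have : cp (kc k) 0 j = 0 := by fin_cases j <;> simp [cp0, cp1, cp2]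
    simp [this]

/-- a triad with a low frequency does not count for the high frequencies -/
lemma Fw_hp_zero {w : K3 → ℝ} (h : kn k < lam) : Fw η w (hp lam U) k p q = 0 := by
  unfold Fw
  have e : hp lam U k = 0 := if_neg (not_le.2 h)
  rw [e]
  have : ∀ r s t : Bool, Gs (w k) (w p) (w q) (kc k) (kc p) (kc q) (par r k 0)
        (par s p (hp lam U p)) (par t q (hp lam U q)) = 0 := by
    intro r s t
    rw [par_zero_vec]
    unfold Gs tau dp
    simp
  simp only [this, mul_zero, Finset.sum_const_zero]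

lemma Fw_hp_same {w : K3 → ℝ} (h1 : lam ≤ kn k) (h2 : lam ≤ kn p) (h3 : lam ≤ kn q) :
    Fw η w (hp lam U) k p q = Fw η w U k p q := by
  unfold Fw hp
  rw [if_pos h1, if_pos h2, if_pos h3]

/-- the long frequency -/
noncomputable def lg (w : K3 → ℝ) (A : ℝ) (U : K3 → C3) (p : K3) : ℝ :=
  if A ≤ kn p then w p * bt p (U p) ^ 2 else 0

/-- the short frequency -/
noncomputable def sh (P : K3 → Prop) [DecidablePred P] (U : K3 → C3) (k : K3) : ℝ :=
  if P k then kn k * bt k (U k) else 0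

lemma sh_nonneg (P : K3 → Prop) [DecidablePred P] (U : K3 → C3) (k : K3) : 0 ≤ sh P U k := by
  unfold sh
  have := kn_nonneg k
  have := bt_nonneg k (U k)
  split_ifs <;> positivity

lemma lg_nonneg {w : K3 → ℝ} (hw : ∀ k, 0 ≤ w k) (A : ℝ) (U : K3 → C3) (p : K3) :
    0 ≤ lg w A U p := by
  unfold lg
  have := hw p
  split_ifs <;> positivity

open Classical in
/-- The nonlocal triads, with the weights of the ramp. -/
theorem far_ramp {B : Finset ℕ} {a S : ℝ} (hη : IsWeight η) (hH : ∀ a b c, |η a b c| ≤ H) (hU : RapV U)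
    (hdiv : ∀ k, dp (kc k) (U k) = 0) (hN : 0 < N)
    (ha : 1 ≤ a) (hB1 : ∀ n ∈ B, N ^ 2 < n) (hB2 : ∀ n ∈ B, n ≤ 4 * N ^ 2)
    (hS1 : 1 ≤ S) (hS : 4 * N ^ 2 * (a - 1) ≤ S) (hl : S * (lam / N) ≤ 1 / 2) :
    ‖T3s (fw η (rb B a) U) - T3s (fw η (rb B a) (hp lam U))‖ₑ
      ≤ (∑' k, ENNReal.ofReal (sh (fun k => kn k < lam) U k))
        * ∑' p, ENNReal.ofReal (162 * H * S * lg (rb B a) (N / 2) U p) := by
  have hH0 : 0 ≤ H := (abs_nonneg _).trans (hH (0, true) (0, true) (0, true))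
  have hN' : (0 : ℝ) < N := by exact_mod_cast hN
  set V := hp lam U with hV
  set f : K3 → K3 → K3 → ℂ := fun k p q => fw η (rb B a) U k p q - fw η (rb B a) V k p q with hf
  have sU := S3s_w hH hU hdiv (rb_pg (B := B) ha)
  have sV := S3s_w hH (hp_rap (lam := lam) hU) (hp_div hdiv) (rb_pg (B := B) ha)
  have hfS : S3s f := Summable.sub sU sV
  have hT : T3s f = T3s (fw η (rb B a) U) - T3s (fw η (rb B a) V) := Summable.tsum_sub sU sV
  have h6 := T3s_sym hfS
  have hsym : (fun k p q => (f k p q + f k q p) + (f p q k + f p k q) + (f q k p + f q p k))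
      = fun k p q => Fw η (rb B a) U k p q - Fw η (rb B a) V k p q := by
    funext k p q
    have e1 := fw_sym hη (rb B a) U k p q
    have e2 := fw_sym hη (rb B a) V k p q
    unfold Fw
    rw [← e1, ← e2]
    simp only [hf]
    ring
  rw [hsym, hT] at h6
  set X : K3 → K3 → ℝ≥0∞ := fun k p => ENNReal.ofReal (sh (fun k => kn k < lam) U k)
    * ENNReal.ofReal (162 * H * S * lg (rb B a) (N / 2) U p) with hX
  have hle : ∀ k p q, k + p + q = 0 → kn k ≤ kn p → kn k ≤ kn q →
      ‖Fw η (rb B a) U k p q - Fw η (rb B a) V k p q‖ₑ ≤ X k p + X k q := by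
    intro k p q h hkp hkq
    have hk0 := kn_nonneg k
    by_cases h1 : lam ≤ kn k
    · rw [hV, Fw_hp_same h1 (h1.trans hkp) (h1.trans hkq), sub_self, enorm_zero]
      exact zero_le
    push Not at h1
    rw [hV, Fw_hp_zero h1, sub_zero]
    by_cases h2 : kn p ≤ N ∧ kn q ≤ N
    · have e : Fw η (rb B a) U k p q = 0 := by
        refine Fw_same h hdiv ?_ ?_
        · rw [rb_one hB1 h2.1, rb_one hB1 (hkp.trans h2.1)]
        · rw [rb_one hB1 h2.2, rb_one hB1 (hkp.trans h2.1)]
      rw [e, enorm_zero]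
      exact zero_le
    have t1 : kn p ≤ kn q + kn k := kn_tri (by rw [← h]; abel)
    have t2 : kn q ≤ kn k + kn p := kn_tri h
    have h3 : (N : ℝ) / 2 ≤ kn p ∧ (N : ℝ) / 2 ≤ kn q := by
      rw [not_and_or, not_le, not_le] at h2
      rcases h2 with h2 | h2 <;> constructor <;> linarith
    have hlam : S * (kn k / N) ≤ 1 / 2 := by
      refine le_trans ?_ hl
      gcongr
    have w0 := rb_ge (B := B) ha p
    have w1 := rb_ge (B := B) ha q
    have w2 := rb_ge (B := B) ha k
    have r1 : rb B a p ≤ 2 * rb B a q := rb_ratio ha hB2 hS hN hk0 hlam t1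
    have r2 : rb B a q ≤ 2 * rb B a p := rb_ratio ha hB2 hS hN hk0 hlam (by linarith)
    have hmx : max (rb B a p) (rb B a q) ≤ 2 * min (rb B a p) (rb B a q) := by
      rcases le_total (rb B a p) (rb B a q) with h5 | h5
      · rw [max_eq_right h5, min_eq_left h5]; exact r2
      · rw [max_eq_left h5, min_eq_right h5]; exact r1
    have hm1 : max (rb B a p) (rb B a q) ≤ S * max (rb B a p) (rb B a q) :=
      le_mul_of_one_le_left (by linarith [le_max_left (rb B a p) (rb B a q)]) hS1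
    have hF := Fw_le (η := η) (U := U) hH (w := rb B a) h hkp hkq hdiv
      (Λ := S * max (rb B a p) (rb B a q)) (rb_mono ha hkp)
      (by linarith [le_max_left (rb B a p) (rb B a q)]) (rb_mono ha hkq)
      (by linarith [le_max_right (rb B a p) (rb B a q)]) (rb_diff ha hB2 hS hN h hkp hkq)
    have b0 := bt_nonneg k (U k)
    have b1 := bt_nonneg p (U p)
    have b2 := bt_nonneg q (U q)
    have hmm : min (rb B a p) (rb B a q) * (bt p (U p) * bt q (U q))
        ≤ 1 / 2 * (rb B a p * bt p (U p) ^ 2 + rb B a q * bt q (U q) ^ 2) := by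
      have m1 := min_le_left (rb B a p) (rb B a q)
      have m2 := min_le_right (rb B a p) (rb B a q)
      have m0 : 0 ≤ min (rb B a p) (rb B a q) := le_min (by linarith) (by linarith)
      have u1 : min (rb B a p) (rb B a q) * bt p (U p) ^ 2 ≤ rb B a p * bt p (U p) ^ 2 := by
        gcongr
      have u2 : min (rb B a p) (rb B a q) * bt q (U q) ^ 2 ≤ rb B a q * bt q (U q) ^ 2 := by
        gcongr
      have u3 : 0 ≤ min (rb B a p) (rb B a q) * (bt p (U p) - bt q (U q)) ^ 2 := by positivity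
      nlinarith
    have hfin : ‖Fw η (rb B a) U k p q‖ ≤ kn k * bt k (U k)
        * (162 * H * S * (rb B a p * bt p (U p) ^ 2)) + kn k * bt k (U k)
        * (162 * H * S * (rb B a q * bt q (U q) ^ 2)) := by
      refine hF.trans ?_
      calc 162 * H * (S * max (rb B a p) (rb B a q)) * (kn k * (bt k (U k) * bt p (U p)
            * bt q (U q)))
          = 162 * H * S * (kn k * bt k (U k)) * (max (rb B a p) (rb B a q)
            * (bt p (U p) * bt q (U q))) := by ring
        _ ≤ 162 * H * S * (kn k * bt k (U k)) * ((2 * min (rb B a p) (rb B a q))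
            * (bt p (U p) * bt q (U q))) := by gcongr
        _ = 162 * H * S * (kn k * bt k (U k)) * (2 * (min (rb B a p) (rb B a q)
            * (bt p (U p) * bt q (U q)))) := by ring
        _ ≤ 162 * H * S * (kn k * bt k (U k)) * (2 * (1 / 2 * (rb B a p * bt p (U p) ^ 2
            + rb B a q * bt q (U q) ^ 2))) := by gcongr
        _ = _ := by ring
    simp only [hX]
    unfold sh lg
    rw [if_pos h1, if_pos h3.1, if_pos h3.2, ← ENNReal.ofReal_mul (by positivity),
      ← ENNReal.ofReal_mul (by positivity), ← ENNReal.ofReal_add (by positivity) (by positivity),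
      ← ofReal_norm]
    exact ENNReal.ofReal_le_ofReal hfin
  have h7 := sum_triads (Φ := fun k p q => Fw η (rb B a) U k p q - Fw η (rb B a) V k p q)
    (fun k p q => by simp only [Fw_rot hη]) hle
  rw [← h6, enorm_mul] at h7
  have e6 : ‖(6 : ℂ)‖ₑ = 6 := by
    rw [← ofReal_norm]; norm_num
  rw [e6] at h7
  have h8 : ‖T3s (fw η (rb B a) U) - T3s (fw η (rb B a) V)‖ₑ ≤ ∑' x : K3 × K3, X x.1 x.2 :=
    (ENNReal.mul_le_mul_iff_right (by norm_num) (by norm_num)).1 h7
  refine h8.trans (le_of_eq ?_)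
  rw [ENNReal.tsum_prod, ← ENNReal.tsum_mul_right]
  refine tsum_congr fun k => ?_
  simp only [hX]
  rw [ENNReal.tsum_mul_left]

end Pool.Agent.H226.SW
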