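import Pool.Agent.H226.SW.Uniq2

/-!
General weights: the production by one triad, sums over the triads.
-/

open MeasureTheory Set Filter Topology
open scoped ENNReal
open H459R3.NS Pool.Agent.X96.HT Pool.Agent.X96.DM

namespace Pool.Agent.H226.SW

variable {η : Md → Md → Md → ℝ} {U : K3 → C3} {k p q : K3} {a b c : C3}

lemma Gs_same (h : k + p + q = 0) (x : ℝ)
    (ha : dp (kc k) a = 0) (hb : dp (kc p) b = 0) (hc : dp (kc q) c = 0) (r s t : Bool) :
    Gs x x x (kc k) (kc p) (kc q) (par r k a) (par s p b) (par t q c) = 0 := by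
  rw [Gs_eq (kc_sum h) (dp_par r ha) (dp_par s hb) (dp_par t hc) (hl_par r ha) (hl_par s hb)
      (hl_par t hc)]
  have e : ((x : ℝ) : ℂ) * (((sg s * kn p : ℝ) : ℂ) - ((sg t * kn q : ℝ) : ℂ))
      + ((x : ℝ) : ℂ) * (((sg t * kn q : ℝ) : ℂ) - ((sg r * kn k : ℝ) : ℂ))
      + ((x : ℝ) : ℂ) * (((sg r * kn k : ℝ) : ℂ) - ((sg s * kn p : ℝ) : ℂ)) = 0 := by
      ring
  rw [e, zero_mul]

/-- the production by one triad whose first frequency is the shortest -/
lemma Gs_gen (h : k + p + q = 0) (hkp : kn k ≤ kn p) (hkq : kn k ≤ kn q) {x y z Λ : ℝ}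
    (hxy : x ≤ y) (hxy1 : y ≤ x + Λ) (hxz : x ≤ z) (hxz1 : z ≤ x + Λ)
    (hyz : |y - z| * max (kn p) (kn q) ≤ 4 * Λ * kn k)
    (ha : dp (kc k) a = 0) (hb : dp (kc p) b = 0) (hc : dp (kc q) c = 0) (r s t : Bool) :
    ‖Gs x y z (kc k) (kc p) (kc q) (par r k a) (par s p b) (par t q c)‖
      ≤ 162 * Λ * (kn k * (‖par r k a‖ * ‖par s p b‖ * ‖par t q c‖)) := by
  have hΛ : 0 ≤ Λ := by linarith
  rcases hΛ.eq_or_lt with h0 | h0
  · have e1 : y = x := by linarith
    have e2 : z = x := by linarith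
    rw [e1, e2, Gs_same h x ha hb hc, norm_zero, ← h0]
    simp
  · have hyz' : |y / Λ - z / Λ| * max (kn p) (kn q) ≤ 4 * kn k := by
      rw [← sub_div, abs_div, abs_of_pos h0, div_mul_eq_mul_div, div_le_iff₀ h0]
      linarith
    have h1 := Gs_small h hkp hkq (x := x / Λ) (y := y / Λ) (z := z / Λ)
      (by gcongr) (by rw [div_add_one h0.ne']; gcongr)
      (by gcongr) (by rw [div_add_one h0.ne']; gcongr) hyz' ha hb hc r s t
    have e : Gs (x : ℂ) (y : ℂ) (z : ℂ) (kc k) (kc p) (kc q) (par r k a) (par s p b) (par t q c)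
        = (Λ : ℂ) * Gs ((x / Λ : ℝ) : ℂ) ((y / Λ : ℝ) : ℂ) ((z / Λ : ℝ) : ℂ) (kc k) (kc p) (kc q)
          (par r k a) (par s p b) (par t q c) := by
      unfold Gs
      have hc : (Λ : ℂ) ≠ 0 := by exact_mod_cast h0.ne'
      push_cast
      field_simp
    rw [e, norm_mul, Complex.norm_real, Real.norm_eq_abs, abs_of_pos h0]
    calc Λ * _ ≤ Λ * (162 * (kn k * (‖par r k a‖ * ‖par s p b‖ * ‖par t q c‖))) := by gcongr
      _ = _ := by ring

/-- the symmetrized production by one triad -/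
noncomputable def Fw (η : Md → Md → Md → ℝ) (w : K3 → ℝ) (U : K3 → C3) (k p q : K3) : ℂ :=
  ∑ r : Bool, ∑ s : Bool, ∑ t : Bool, (η (k, r) (p, s) (q, t) : ℂ) *
      Gs (w k) (w p) (w q) (kc k) (kc p) (kc q) (par r k (U k))
        (par s p (U p)) (par t q (U q))

lemma Fw_rot (hη : IsWeight η) (w : K3 → ℝ) (U : K3 → C3) (k p q : K3) :
    Fw η w U p q k = Fw η w U k p q := by
  unfold Fw
  have e : ∀ r s t : Bool, (η (p, s) (q, t) (k, r) : ℂ) *
      Gs (w p) (w q) (w k) (kc p) (kc q) (kc k) (par s p (U p))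
        (par t q (U q)) (par r k (U k)) = (η (k, r) (p, s) (q, t) : ℂ) *
      Gs (w k) (w p) (w q) (kc k) (kc p) (kc q) (par r k (U k))
        (par s p (U p)) (par t q (U q)) := by
    intro r s t
    rw [hη.rot (k, r) (p, s) (q, t), ← Gs_rot]
  simp only [Fintype.sum_bool, e]
  ring

lemma Fw_le {H : ℝ} (hH : ∀ a b c, |η a b c| ≤ H) {w : K3 → ℝ} (h : k + p + q = 0)
    (hkp : kn k ≤ kn p) (hkq : kn k ≤ kn q) (hdiv : ∀ k, dp (kc k) (U k) = 0) {Λ : ℝ}
    (hxy : w k ≤ w p) (hxy1 : w p ≤ w k + Λ) (hxz : w k ≤ w q) (hxz1 : w q ≤ w k + Λ)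
    (hyz : |w p - w q| * max (kn p) (kn q) ≤ 4 * Λ * kn k) :
    ‖Fw η w U k p q‖ ≤ 162 * H * Λ * (kn k * (bt k (U k) * bt p (U p) * bt q (U q))) := by
  have hH0 : 0 ≤ H := (abs_nonneg _).trans (hH (k, true) (p, true) (q, true))
  have hΛ : 0 ≤ Λ := by linarith
  unfold Fw
  calc _ ≤ ∑ r : Bool, ∑ s : Bool, ∑ t : Bool,
        H * (162 * Λ * (kn k * (‖par r k (U k)‖ * ‖par s p (U p)‖ * ‖par t q (U q)‖))) := by
          refine (norm_sum_le _ _).trans (Finset.sum_le_sum fun r _ => ?_)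
          refine (norm_sum_le _ _).trans (Finset.sum_le_sum fun s _ => ?_)
          refine (norm_sum_le _ _).trans (Finset.sum_le_sum fun t _ => ?_)
          rw [norm_mul, Complex.norm_real, Real.norm_eq_abs]
          exact mul_le_mul (hH _ _ _) (Gs_gen h hkp hkq hxy hxy1 hxz hxz1 hyz (hdiv k) (hdiv p)
            (hdiv q) r s t) (norm_nonneg _) hH0
    _ = _ := by
          rw [bt_eq, bt_eq, bt_eq]
          simp only [Fintype.sum_bool]
          ring

lemma Fw_same (h : k + p + q = 0) (hdiv : ∀ k, dp (kc k) (U k) = 0) {w : K3 → ℝ}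
    (h1 : w p = w k) (h2 : w q = w k) : Fw η w U k p q = 0 := by
  unfold Fw
  rw [h1, h2]
  simp only [Gs_same h (w k) (hdiv k) (hdiv p) (hdiv q), mul_zero, Finset.sum_const_zero]

lemma tsw_swap (F : K3 → K3 → ℝ≥0∞) : ∑' x : K3 × K3, F x.2 x.1 = ∑' x : K3 × K3, F x.1 x.2 :=
  (Equiv.prodComm K3 K3).tsum_eq fun x : K3 × K3 => F x.1 x.2

lemma tsw_23 (F : K3 → K3 → ℝ≥0∞) :
    ∑' x : K3 × K3, F x.1 (-x.1 - x.2) = ∑' x : K3 × K3, F x.1 x.2 :=
  inv23.tsum_eq fun x : K3 × K3 => F x.1 x.2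

lemma tsw_23' (F : K3 → K3 → ℝ≥0∞) :
    ∑' x : K3 × K3, F x.2 (-x.1 - x.2) = ∑' x : K3 × K3, F x.1 x.2 := by
  rw [← tsw_23 F, ← tsw_swap (fun a b => F a (-a - b))]
  refine tsum_congr fun x => ?_
  rw [show -x.2 - x.1 = -x.1 - x.2 by abel]

lemma tsw_31 (F : K3 → K3 → ℝ≥0∞) :
    ∑' x : K3 × K3, F (-x.1 - x.2) x.1 = ∑' x : K3 × K3, F x.1 x.2 := by
  rw [tsw_23 (fun a b => F b a), tsw_swap]

lemma tsw_32 (F : K3 → K3 → ℝ≥0∞) :
    ∑' x : K3 × K3, F (-x.1 - x.2) x.2 = ∑' x : K3 × K3, F x.1 x.2 := by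
  rw [tsw_23' (fun a b => F b a), tsw_swap]

/-- sum over the triads, the shortest frequency being singled out -/
lemma sum_triads {Φ : K3 → K3 → K3 → ℂ} (hrot : ∀ k p q, Φ p q k = Φ k p q)
    {X : K3 → K3 → ℝ≥0∞} (hX : ∀ k p q, k + p + q = 0 → kn k ≤ kn p → kn k ≤ kn q →
      ‖Φ k p q‖ₑ ≤ X k p + X k q) :
    ‖T3s Φ‖ₑ ≤ 6 * ∑' x : K3 × K3, X x.1 x.2 := by
  have key : ∀ k p q, k + p + q = 0 → ‖Φ k p q‖ₑ ≤ (X k p + X k q) + (X p q + X p k)
      + (X q k + X q p) := by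
    intro k p q h
    rcases le_total (kn k) (kn p) with h1 | h1
    · rcases le_total (kn k) (kn q) with h2 | h2
      · exact (hX k p q h h1 h2).trans (by rw [add_assoc]; exact le_self_add)
      · have h3 := hX q k p (by rw [← h]; abel) h2 (h2.trans h1)
        rw [hrot p q k, hrot k p q] at h3
        exact h3.trans le_add_self
    · rcases le_total (kn p) (kn q) with h2 | h2
      · have h3 := hX p q k (by rw [← h]; abel) h2 h1
        rw [hrot k p q] at h3
        exact h3.trans (le_add_self.trans (le_self_add (a := _) (b := X q k + X q p)))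
      · have h3 := hX q k p (by rw [← h]; abel) (h2.trans h1) h2
        rw [hrot p q k, hrot k p q] at h3
        exact h3.trans le_add_self
  refine enorm_T3s_le.trans ((ENNReal.tsum_le_tsum fun x : K3 × K3 =>
    key x.1 x.2 (-x.1 - x.2) (by abel)).trans ?_)
  rw [ENNReal.tsum_add, ENNReal.tsum_add, ENNReal.tsum_add,
      ENNReal.tsum_add, ENNReal.tsum_add, tsw_23, tsw_23', tsw_swap, tsw_31, tsw_32]
  refine le_of_eq ?_
  ring

/-! ### Weights of polynomial growth -/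

/-- polynomial growth -/
def PG (w : K3 → ℝ) : Prop := ∃ (C : ℝ) (m : ℕ), ∀ k, |w k| ≤ C * (1 + kn k) ^ m

lemma PG.of_le {w : K3 → ℝ} {C : ℝ} (h : ∀ k, |w k| ≤ C) : PG w :=
  ⟨C, 0, fun k => by simpa using h k⟩

lemma PG.add {w v : K3 → ℝ} (hw : PG w) (hv : PG v) : PG fun k => w k + v k := by
  obtain ⟨C, m, h1⟩ := hw
  obtain ⟨D, n, h2⟩ := hv
  refine ⟨|C| + |D|, m + n, fun k => (abs_add_le _ _).trans ?_⟩
  have h0 := kn_nonneg k
  have h3 : (1 + kn k) ^ m ≤ (1 + kn k) ^ (m + n) := pow_le_pow_right₀ (by linarith) (by omega)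
  have h4 : (1 + kn k) ^ n ≤ (1 + kn k) ^ (m + n) := pow_le_pow_right₀ (by linarith) (by omega)
  have a1 := le_abs_self C
  have a2 := le_abs_self D
  calc |w k| + |v k| ≤ C * (1 + kn k) ^ m + D * (1 + kn k) ^ n := add_le_add (h1 k) (h2 k)
    _ ≤ |C| * (1 + kn k) ^ (m + n) + |D| * (1 + kn k) ^ (m + n) := by gcongr
    _ = _ := by ring

lemma PG.summable {w : K3 → ℝ} (hw : PG w) (hU : RapV U) :
    Summable fun k => |w k| * ‖U k‖ := by
  obtain ⟨C, m, h1⟩ := hw
  have h2 : Summable fun k => (|C| * 2 ^ m) * (‖U k‖ + kn k ^ m * ‖U k‖) :=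
    ((RapV.summable hU).add (hU m)).mul_left _
  refine Summable.of_nonneg_of_le (fun k => by positivity) (fun k => ?_) h2
  have h0 := kn_nonneg k
  have h3 : (1 + kn k) ^ m ≤ 2 ^ m * (1 + kn k ^ m) := by
    have h4 : (1 + kn k) ^ m ≤ (2 * max 1 (kn k)) ^ m := by
      gcongr
      rcases le_total 1 (kn k) with h | h
      · rw [max_eq_right h]; linarith
      · rw [max_eq_left h]; linarith
    refine h4.trans ?_
    rw [mul_pow]
    gcongr
    rcases le_total 1 (kn k) with h | h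
    · rw [max_eq_right h]; linarith
    · rw [max_eq_left h, one_pow]
      have : 0 ≤ kn k ^ m := by positivity
      linarith
  have h5 := h1 k
  have h6 : C ≤ |C| := le_abs_self C
  calc |w k| * ‖U k‖ ≤ (|C| * (2 ^ m * (1 + kn k ^ m))) * ‖U k‖ := by
        gcongr
        exact h5.trans (by gcongr)
    _ = _ := by ring

lemma PG.mul_kn {w : K3 → ℝ} (hw : PG w) (n : ℕ) : PG fun k => w k * kn k ^ n := by
  obtain ⟨C, m, h1⟩ := hw
  refine ⟨|C|, m + n, fun k => ?_⟩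
  have h0 := kn_nonneg k
  rw [abs_mul, abs_of_nonneg (pow_nonneg h0 n), pow_add]
  have h2 : kn k ^ n ≤ (1 + kn k) ^ n := by gcongr; linarith
  have h3 := h1 k
  have h6 : C ≤ |C| := le_abs_self C
  have h7 : |w k| ≤ |C| * (1 + kn k) ^ m := h3.trans (by gcongr)
  calc |w k| * kn k ^ n ≤ (|C| * (1 + kn k) ^ m) * (1 + kn k) ^ n := by gcongr
    _ = _ := by ring

lemma S3s_w {H : ℝ} (hH : ∀ a b c, |η a b c| ≤ H) (hU : RapV U)
    (hdiv : ∀ k, dp (kc k) (U k) = 0) {w : K3 → ℝ} (hw : PG w) : S3s (fw η w U) := by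
  have hH0 : 0 ≤ H := (abs_nonneg _).trans (hH (0, true) (0, true) (0, true))
  have h0 : Summable fun k => ‖U k‖ := by simpa using hU 0
  have h1 : Summable fun k => |w k * kn k ^ 1| * ‖U k‖ := (hw.mul_kn 1).summable hU
  have hM : ∀ k, ‖U k‖ ≤ ∑' m, ‖U m‖ := fun k => h0.le_tsum k fun _ _ => norm_nonneg _
  refine Summable.of_norm ?_
  refine Summable.of_nonneg_of_le (fun p => norm_nonneg _) (fun p => ?_)
    ((Summable.mul_of_nonneg h1 h0 (fun k => by positivity)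
      (fun k => norm_nonneg _)).mul_left (243 * H * ∑' m, ‖U m‖))
  have hk := kn_nonneg p.1
  have h2 := norm_fw_le (w := w) hH (k := p.1) (p := p.2) (q := -p.1 - p.2) (by abel) (hdiv p.2)
  have b1 := bt_le p.1 (U p.1)
  have b2 := bt_le p.2 (U p.2)
  have b3 := (bt_le (-p.1 - p.2) (U (-p.1 - p.2))).trans
    (mul_le_mul_of_nonneg_left (hM (-p.1 - p.2)) (by norm_num : (0 : ℝ) ≤ 3))
  have n1 := bt_nonneg p.1 (U p.1)
  have n2 := bt_nonneg p.2 (U p.2)
  have n3 := bt_nonneg (-p.1 - p.2) (U (-p.1 - p.2))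
  refine h2.trans ?_
  rw [abs_mul, pow_one, abs_of_nonneg hk]
  calc 9 * H * (|w p.1| * kn p.1) * (bt p.1 (U p.1) * bt p.2 (U p.2)
        * bt (-p.1 - p.2) (U (-p.1 - p.2)))
      ≤ 9 * H * (|w p.1| * kn p.1) * ((3 * ‖U p.1‖) * (3 * ‖U p.2‖) * (3 * ∑' m, ‖U m‖)) := by
        gcongr
    _ = _ := by ring

lemma six_T3s (hη : IsWeight η) (hU : RapV U) (hdiv : ∀ k, dp (kc k) (U k) = 0) {w : K3 → ℝ}
    (hw : PG w) : 6 * T3s (fw η w U) = T3s (Fw η w U) := by
  obtain ⟨H, hH⟩ := hη.bdd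
  rw [T3s_sym (S3s_w hH hU hdiv hw)]
  congr 1
  funext k p q
  exact fw_sym hη w U k p q

lemma T3s_add_w {H : ℝ} (hH : ∀ a b c, |η a b c| ≤ H) (hU : RapV U)
    (hdiv : ∀ k, dp (kc k) (U k) = 0) {w v : K3 → ℝ} (hw : PG w) (hv : PG v) :
    T3s (fw η (fun k => w k + v k) U) = T3s (fw η w U) + T3s (fw η v U) := by
  have h1 : Summable _ := S3s_w hH hU hdiv hw
  have h2 : Summable _ := S3s_w hH hU hdiv hv
  unfold T3s
  rw [← h1.tsum_add h2]
  refine tsum_congr fun x => ?_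
  unfold fw
  push_cast
  ring

lemma T3s_smul_w (c : ℝ) (w : K3 → ℝ) :
    T3s (fw η (fun k => c * w k) U) = (c : ℂ) * T3s (fw η w U) := by
  unfold T3s
  rw [← tsum_mul_left]
  refine tsum_congr fun x => ?_
  unfold fw
  push_cast
  ring

lemma T3s_one (hη : IsWeight η) (hU : RapV U) (hdiv : ∀ k, dp (kc k) (U k) = 0) :
    T3s (fw η (fun _ => 1) U) = 0 := by
  have := T3s_energy hη hU hdiv
  simpa using this

lemma PG.sum {ι : Type*} (F : Finset ι) {w : ι → K3 → ℝ} (h : ∀ i ∈ F, PG (w i)) :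
    PG fun k => ∑ i ∈ F, w i k := by
  classical
  induction F using Finset.induction_on with
  | empty => exact PG.of_le (C := 0) fun k => by simp
  | insert i F hi ih =>
    simp only [Finset.sum_insert hi]
    exact (h i (Finset.mem_insert_self _ _)).add (ih fun j hj => h j (Finset.mem_insert_of_mem hj))

lemma T3s_sum_w {H : ℝ} (hH : ∀ a b c, |η a b c| ≤ H) (hU : RapV U)
    (hdiv : ∀ k, dp (kc k) (U k) = 0) {ι : Type*} (F : Finset ι) {w : ι → K3 → ℝ}
    (hw : ∀ i ∈ F, PG (w i)) :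
    T3s (fw η (fun k => ∑ i ∈ F, w i k) U) = ∑ i ∈ F, T3s (fw η (w i) U) := by
  classical
  induction F using Finset.induction_on with
  | empty =>
    simp only [Finset.sum_empty]
    have := T3s_smul_w (η := η) (U := U) 0 (fun _ => 1)
    simpa using this
  | insert i F hi ih =>
    simp only [Finset.sum_insert hi]
    rw [T3s_add_w hH hU hdiv (hw i (Finset.mem_insert_self _ _))
      (PG.sum F fun j hj => hw j (Finset.mem_insert_of_mem hj)),
      ih fun j hj => hw j (Finset.mem_insert_of_mem hj)]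

/-- the pairing with the nonlinear term, with an even weight -/
lemma pair_rap (hη : IsWeight η) (hU : RapV U) (hdiv : ∀ k, dp (kc k) (U k) = 0)
    (hreal : ∀ k, U (-k) = cj (U k)) {w : K3 → ℝ} (hw : ∀ k, w (-k) = w k) (hp : PG w) :
    HasSum (fun k => (w k : ℂ) * ∑ i, (starRingEnd ℂ) (U k i) * nonl η U k i)
      (2 * Real.pi * T3s (fw η w U)) := by
  obtain ⟨H, hH⟩ := hη.bdd
  have hS := S3s_w hH hU hdiv hp
  have h1 : HasSum (fun p : K3 × K3 => 2 * Real.pi * fw η w U p.1 p.2 (-p.1 - p.2))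
      (2 * Real.pi * T3s (fw η w U)) :=
    (Summable.hasSum hS).mul_left _
  have hU0 := RapV.summable hU
  have h2 : ∀ k, HasSum (fun p => 2 * Real.pi * fw η w U k p (-k - p))
      ((w k : ℂ) * dp (U k) (nonl η U (-k))) := by
    intro k
    have hs := (bil_summable hH hU0 hU0 (-k)).of_norm
    have h3 : HasSum (fun p => dp (U k) (bil η (-k) p (-k - p) (U p) (U (-k - p))))
        (dp (U k) (nonl η U (-k))) := by
      have hs' : Summable fun p => dp (U k) (bil η (-k) p (-k - p) (U p) (U (-k - p))) := by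
        have hi : ∀ i, Summable fun p => bil η (-k) p (-k - p) (U p) (U (-k - p)) i :=
          fun i => (Pi.summable.1 hs) i
        unfold dp
        exact (((hi 0).mul_left _).add ((hi 1).mul_left _)).add ((hi 2).mul_left _)
      have := hs'.hasSum
      rwa [← dp_tsum hs] at this
    have h4 := h3.mul_left (w k : ℂ)
    have e : (fun p => 2 * Real.pi * fw η w U k p (-k - p))
        = fun p => (w k : ℂ) * dp (U k) (bil η (-k) p (-k - p) (U p) (U (-k - p))) := by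
      funext p
      rw [dp_bil_eq k p hdiv]
      unfold fw
      ring
    rw [e]
    exact h4
  have h5 := h1.prod_fiberwise h2
  have h6 := (Equiv.neg K3).hasSum_iff.2 h5
  have e : ((fun k => (w k : ℂ) * dp (U k) (nonl η U (-k))) ∘ ⇑(Equiv.neg K3))
      = fun k => (w k : ℂ) * ∑ i, (starRingEnd ℂ) (U k i) * nonl η U k i := by
    funext k
    simp only [Function.comp_apply, Equiv.neg_apply, neg_neg, hw]
    rw [hreal k]
    congr 1
    rw [Fin.sum_univ_three]
    rfl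
  rw [e] at h6
  exact h6

end Pool.Agent.H226.SW
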