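import Pool.Agent.H226.OF.Ramp

/-!
The weights beyond the octave, and the sums over the short frequencies.
-/

open MeasureTheory Set Filter Topology
open scoped ENNReal
open H459R3.NS Pool.Agent.X96.HT Pool.Agent.X96.DM

namespace Pool.Agent.H226.SW

variable {η : Md → Md → Md → ℝ} {U : K3 → C3} {k p q : K3} {H : ℝ} {N s : ℕ} {lam K M : ℝ}

/-- `max (1, |k| / K)` -/
noncomputable def ub (K : ℝ) (k : K3) : ℝ := max 1 (kn k / K)

/-- the tail of the weights -/
noncomputable def tl (K M : ℝ) (k : K3) : ℝ := M * (ub K k ^ 2 - 1)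

lemma ub_ge (K : ℝ) (k : K3) : 1 ≤ ub K k := le_max_left _ _

lemma ub_mono (hK : 0 < K) (h : kn k ≤ kn p) : ub K k ≤ ub K p := by
  unfold ub
  gcongr

lemma ub_one (hK : 0 < K) (h : kn k ≤ K) : ub K k = 1 := max_eq_left ((div_le_one hK).2 h)

lemma ub_two (hK : 0 < K) (h : K ≤ kn k) : ub K k = kn k / K :=
  max_eq_right ((one_le_div hK).2 h)

lemma ub_neg (K : ℝ) (k : K3) : ub K (-k) = ub K k := by unfold ub; rw [kn_neg]

lemma tl_nonneg (hM : 0 ≤ M) (k : K3) : 0 ≤ tl K M k := by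
  unfold tl
  have := ub_ge K k
  have : 1 ≤ ub K k ^ 2 := one_le_pow₀ this
  exact mul_nonneg hM (by linarith)

lemma tl_mono (hK : 0 < K) (hM : 0 ≤ M) (h : kn k ≤ kn p) : tl K M k ≤ tl K M p := by
  unfold tl
  have := ub_ge K k
  have := ub_mono hK h
  gcongr

lemma tl_neg (K M : ℝ) (k : K3) : tl K M (-k) = tl K M k := by unfold tl; rw [ub_neg]

lemma tl_zero (hK : 0 < K) (h : kn k ≤ K) : tl K M k = 0 := by
  unfold tl; rw [ub_one hK h]; ring

lemma tl_pg (hK : 1 ≤ K) (hM : 0 ≤ M) : PG (tl K M) := by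
  refine ⟨M, 2, fun k => ?_⟩
  have hK0 : 0 < K := by linarith
  rw [abs_of_nonneg (tl_nonneg hM k)]
  unfold tl
  have h0 := kn_nonneg k
  have h1 : ub K k ≤ 1 + kn k := by
    unfold ub
    refine max_le (by linarith) ?_
    have : kn k / K ≤ kn k := div_le_self h0 hK
    linarith
  have h2 := ub_ge K k
  have h3 : ub K k ^ 2 ≤ (1 + kn k) ^ 2 := by gcongr
  have : M * (ub K k ^ 2 - 1) ≤ M * (ub K k ^ 2) := by gcongr; linarith
  exact this.trans (by gcongr)

open Classical in
/-- The production of the tail of the weights. -/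
theorem tail_prod (hη : IsWeight η) (hH : ∀ a b c, |η a b c| ≤ H) (hU : RapV U)
    (hdiv : ∀ k, dp (kc k) (U k) = 0) (hK : 1 ≤ K) (hM : 0 ≤ M) :
    ‖T3s (fw η (tl K M) U)‖ₑ
      ≤ ∑' p, (∑' k, ENNReal.ofReal (sh (fun k => kn k ≤ kn p) U k))
        * ENNReal.ofReal (324 * H * M * lg (fun p => ub K p ^ 2) (K / 2) U p) := by
  have hH0 : 0 ≤ H := (abs_nonneg _).trans (hH (0, true) (0, true) (0, true))
  have hK0 : 0 < K := by linarith
  have h6 := six_T3s hη hU hdiv (tl_pg hK hM)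
  set X : K3 → K3 → ℝ≥0∞ := fun k p => ENNReal.ofReal (sh (fun k => kn k ≤ kn p) U k)
    * ENNReal.ofReal (324 * H * M * lg (fun p => ub K p ^ 2) (K / 2) U p) with hX
  have hle : ∀ k p q, k + p + q = 0 → kn k ≤ kn p → kn k ≤ kn q →
      ‖Fw η (tl K M) U k p q‖ₑ ≤ X k p + X k q := by
    intro k p q h hkp hkq
    have hk0 := kn_nonneg k
    have hp0 := kn_nonneg p
    have hq0 := kn_nonneg q
    by_cases h2 : kn p ≤ K ∧ kn q ≤ K
    · have e : Fw η (tl K M) U k p q = 0 := by
        refine Fw_same h hdiv ?_ ?_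
        · rw [tl_zero hK0 h2.1, tl_zero hK0 (hkp.trans h2.1)]
        · rw [tl_zero hK0 h2.2, tl_zero hK0 (hkp.trans h2.1)]
      rw [e, enorm_zero]
      exact zero_le
    have t1 : kn p ≤ kn q + kn k := kn_tri (by rw [← h]; abel)
    have t2 : kn q ≤ kn k + kn p := kn_tri h
    have h3 : K / 2 ≤ kn p ∧ K / 2 ≤ kn q := by
      rw [not_and_or, not_le, not_le] at h2
      rcases h2 with h2 | h2 <;> constructor <;> linarith
    have u0 := ub_ge K k
    have u1 := ub_ge K p
    have u2 := ub_ge K q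
    set m : ℝ := max (ub K p) (ub K q) with hm
    have m1 : 1 ≤ m := u1.trans (le_max_left _ _)
    have hKm : max (kn p) (kn q) ≤ K * m := by
      have g : ∀ a, kn a ≤ K * ub K a := by
        intro a
        have : kn a / K ≤ ub K a := le_max_right _ _
        rw [div_le_iff₀ hK0] at this
        linarith
      refine max_le ((g p).trans ?_) ((g q).trans ?_)
      · exact mul_le_mul_of_nonneg_left (le_max_left _ _) hK0.le
      · exact mul_le_mul_of_nonneg_left (le_max_right _ _) hK0.le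
    have hlip : |ub K p - ub K q| ≤ kn k / K := by
      unfold ub
      refine (abs_max_sub_max_le_max _ _ _ _).trans ?_
      rw [sub_self, abs_zero]
      refine max_le (by positivity) ?_
      rw [← sub_div, abs_div, abs_of_pos hK0]
      gcongr
      rw [abs_le]
      constructor <;> linarith
    have hyz : |tl K M p - tl K M q| * max (kn p) (kn q) ≤ 4 * (M * m ^ 2) * kn k := by
      have e1 : tl K M p - tl K M q = M * ((ub K p - ub K q) * (ub K p + ub K q)) := by
        unfold tl; ring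
      rw [e1, abs_mul, abs_mul, abs_of_nonneg hM, abs_of_nonneg (by linarith : 0 ≤ ub K p + ub K q)]
      have s1 : ub K p + ub K q ≤ 2 * m := by
        have := le_max_left (ub K p) (ub K q)
        have := le_max_right (ub K p) (ub K q)
        linarith
      have s2 : 0 ≤ max (kn p) (kn q) := hp0.trans (le_max_left _ _)
      calc M * (|ub K p - ub K q| * (ub K p + ub K q)) * max (kn p) (kn q)
          ≤ M * (kn k / K * (2 * m)) * (K * m) := by gcongr
        _ = 2 * (M * m ^ 2 * kn k) := by field_simp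
        _ ≤ 4 * (M * m ^ 2 * kn k) := by
            have : 0 ≤ M * m ^ 2 * kn k := by positivity
            linarith
        _ = _ := by ring
    have hle1 : ∀ a, ub K a ≤ m → tl K M a ≤ tl K M k + M * m ^ 2 := by
      intro a ha
      have h1 := tl_nonneg (K := K) hM k
      have h2 := ub_ge K a
      have h3 : tl K M a ≤ M * m ^ 2 := by
        unfold tl
        have : ub K a ^ 2 ≤ m ^ 2 := by gcongr
        exact mul_le_mul_of_nonneg_left (by linarith) hM
      linarith
    have hF := Fw_le (η := η) (U := U) hH (w := tl K M) h hkp hkq hdiv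
      (Λ := M * m ^ 2) (tl_mono hK0 hM hkp) (hle1 p (le_max_left _ _)) (tl_mono hK0 hM hkq)
      (hle1 q (le_max_right _ _)) hyz
    -- comparison of the two long frequencies
    have hdb : ∀ a b, kn a ≤ 2 * kn b → ub K a ≤ 2 * ub K b := by
      intro a b hab
      unfold ub
      have e : kn a / K ≤ 2 * (kn b / K) := by
        rw [← mul_div_assoc]; gcongr
      have g1 := le_max_left 1 (kn b / K)
      have g2 := le_max_right 1 (kn b / K)
      exact max_le (by linarith) (by linarith)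
    have d1 := hdb p q (by linarith)
    have d2 := hdb q p (by linarith)
    have hmm : m ≤ 2 * min (ub K p) (ub K q) := by
      rw [hm]
      rcases le_total (ub K p) (ub K q) with h5 | h5
      · rw [max_eq_right h5, min_eq_left h5]; exact d2
      · rw [max_eq_left h5, min_eq_right h5]; exact d1
    have b0 := bt_nonneg k (U k)
    have b1 := bt_nonneg p (U p)
    have b2 := bt_nonneg q (U q)
    set n := min (ub K p) (ub K q) with hn
    have n1 : 1 ≤ n := le_min u1 u2
    have hmm2 : m ^ 2 ≤ 4 * n ^ 2 := by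
      have : m ^ 2 ≤ (2 * n) ^ 2 := by gcongr
      linarith [this]
    have hprod : n ^ 2 * (bt p (U p) * bt q (U q))
        ≤ 1 / 2 * (ub K p ^ 2 * bt p (U p) ^ 2 + ub K q ^ 2 * bt q (U q) ^ 2) := by
      have v1 : n ^ 2 * bt p (U p) ^ 2 ≤ ub K p ^ 2 * bt p (U p) ^ 2 := by
        gcongr; exact min_le_left _ _
      have v2 : n ^ 2 * bt q (U q) ^ 2 ≤ ub K q ^ 2 * bt q (U q) ^ 2 := by
        gcongr; exact min_le_right _ _
      have v3 : 0 ≤ n ^ 2 * (bt p (U p) - bt q (U q)) ^ 2 := by positivity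
      nlinarith
    have hfin : ‖Fw η (tl K M) U k p q‖ ≤ kn k * bt k (U k)
        * (324 * H * M * (ub K p ^ 2 * bt p (U p) ^ 2)) + kn k * bt k (U k)
        * (324 * H * M * (ub K q ^ 2 * bt q (U q) ^ 2)) := by
      refine hF.trans ?_
      calc 162 * H * (M * m ^ 2) * (kn k * (bt k (U k) * bt p (U p) * bt q (U q)))
          = 162 * H * M * (kn k * bt k (U k)) * (m ^ 2 * (bt p (U p) * bt q (U q))) := by ring
        _ ≤ 162 * H * M * (kn k * bt k (U k)) * ((4 * n ^ 2) * (bt p (U p) * bt q (U q))) := by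
            gcongr
        _ = 162 * H * M * (kn k * bt k (U k)) * (4 * (n ^ 2 * (bt p (U p) * bt q (U q)))) := by
            ring
        _ ≤ 162 * H * M * (kn k * bt k (U k)) * (4 * (1 / 2 * (ub K p ^ 2 * bt p (U p) ^ 2
            + ub K q ^ 2 * bt q (U q) ^ 2))) := by gcongr
        _ = _ := by ring
    simp only [hX]
    unfold sh lg
    rw [if_pos hkp, if_pos hkq, if_pos h3.1, if_pos h3.2, ← ENNReal.ofReal_mul (by positivity),
      ← ENNReal.ofReal_mul (by positivity), ← ENNReal.ofReal_add (by positivity) (by positivity),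
      ← ofReal_norm]
    exact ENNReal.ofReal_le_ofReal hfin
  have h7 := sum_triads (Φ := Fw η (tl K M) U) (fun k p q => Fw_rot hη _ _ k p q) hle
  rw [← h6, enorm_mul] at h7
  have e6 : ‖(6 : ℂ)‖ₑ = 6 := by
    rw [← ofReal_norm]; norm_num
  rw [e6] at h7
  have h8 : ‖T3s (fw η (tl K M) U)‖ₑ ≤ ∑' x : K3 × K3, X x.1 x.2 :=
    (ENNReal.mul_le_mul_iff_right (by norm_num) (by norm_num)).1 h7
  refine h8.trans (le_of_eq ?_)
  rw [← tsw_swap X]
  refine (ENNReal.tsum_prod' (f := fun x : K3 × K3 => X x.2 x.1)).trans ?_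
  refine tsum_congr fun p => ?_
  simp only [hX]
  rw [ENNReal.tsum_mul_right]

/-! ### The short frequencies -/

lemma card_ball (P : ℝ) (hP : 1 ≤ P) (A : Finset K3) (hA : ∀ k ∈ A, kn k ≤ P) :
    (A.card : ℝ) ≤ 27 * P ^ 3 := by
  have h2 : A ⊆ (finite_cube ⌊P⌋₊).toFinset := by
    intro k hk
    rw [Set.Finite.mem_toFinset]
    show H459R3.NS.N k ≤ ⌊P⌋₊
    exact Nat.le_floor ((N_le_kn k).trans (hA k hk))
  have h3 := Finset.card_le_card h2
  have h4 : (A.card : ℝ) ≤ (2 * (⌊P⌋₊ : ℕ) + 1) ^ 3 := by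
    rw [← card_cube]; exact_mod_cast h3
  refine h4.trans ?_
  have h5 : (⌊P⌋₊ : ℝ) ≤ P := Nat.floor_le (by linarith)
  calc (2 * (⌊P⌋₊ : ℝ) + 1) ^ 3 ≤ (3 * P) ^ 3 := by
        gcongr
        linarith
    _ = _ := by ring

/-- weighted Cauchy-Schwarz inequality -/
lemma sum_kn_le {w : K3 → ℝ} (hw : ∀ k, 0 < w k)
    (hs : Summable fun k => w k * ∑ i, ‖U k i‖ ^ 2) {F P X : ℝ}
    (hF : ∑' k, w k * ∑ i, ‖U k i‖ ^ 2 ≤ F) (hP : 1 ≤ P) (hX : 0 ≤ X) (A : Finset K3)
    (hA : ∀ k ∈ A, kn k ≤ P ∧ kn k ^ 2 ≤ X * w k) :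
    ∑ k ∈ A, kn k * ‖U k‖ ≤ Real.sqrt (27 * P ^ 3 * X) * Real.sqrt F := by
  have hF0 : 0 ≤ F := (tsum_nonneg fun k => mul_nonneg (hw k).le (by positivity)).trans hF
  have e : ∀ k ∈ A, kn k * ‖U k‖ = (kn k / Real.sqrt (w k)) * (Real.sqrt (w k) * ‖U k‖) := by
    intro k _
    have := Real.sqrt_pos.2 (hw k)
    field_simp
  rw [Finset.sum_congr rfl e]
  have h1 := Real.sum_mul_le_sqrt_mul_sqrt A (fun k => kn k / Real.sqrt (w k))
    fun k => Real.sqrt (w k) * ‖U k‖
  refine h1.trans ?_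
  have h2 : ∑ k ∈ A, (kn k / Real.sqrt (w k)) ^ 2 ≤ 27 * P ^ 3 * X := by
    calc ∑ k ∈ A, (kn k / Real.sqrt (w k)) ^ 2 ≤ ∑ _k ∈ A, X := by
          refine Finset.sum_le_sum fun k hk => ?_
          rw [div_pow, Real.sq_sqrt (hw k).le, div_le_iff₀ (hw k)]
          exact (hA k hk).2
      _ = A.card * X := by rw [Finset.sum_const, nsmul_eq_mul]
      _ ≤ _ := by
          have := card_ball P hP A fun k hk => (hA k hk).1
          gcongr
  have h3 : ∑ k ∈ A, (Real.sqrt (w k) * ‖U k‖) ^ 2 ≤ F := by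
    refine le_trans ?_ hF
    refine le_trans ?_ (hs.sum_le_tsum A fun k _ => mul_nonneg (hw k).le (by positivity))
    refine Finset.sum_le_sum fun k _ => ?_
    rw [mul_pow, Real.sq_sqrt (hw k).le]
    have := sq_le_sum (U k)
    have := (hw k).le
    gcongr
  gcongr

/-- passage to the infinite sum -/
lemma sh_tsum_le {P : K3 → Prop} [DecidablePred P] {B : ℝ}
    (h : ∀ A : Finset K3, (∀ k ∈ A, P k) → ∑ k ∈ A, kn k * ‖U k‖ ≤ B) :
    ∑' k, ENNReal.ofReal (sh P U k) ≤ ENNReal.ofReal (3 * B) := by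
  rw [ENNReal.tsum_eq_iSup_sum]
  refine iSup_le fun A => ?_
  rw [← ENNReal.ofReal_sum_of_nonneg fun k _ => sh_nonneg P U k]
  refine ENNReal.ofReal_le_ofReal ?_
  have h1 : ∑ k ∈ A, sh P U k ≤ ∑ k ∈ A.filter P, 3 * (kn k * ‖U k‖) := by
    rw [Finset.sum_filter]
    refine Finset.sum_le_sum fun k _ => ?_
    unfold sh
    split_ifs
    · have h2 := bt_le k (U k)
      have h3 := kn_nonneg k
      calc kn k * bt k (U k) ≤ kn k * (3 * ‖U k‖) := by gcongr
        _ = _ := by ring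
    · exact le_rfl
  refine h1.trans ?_
  rw [← Finset.mul_sum]
  have h2 := h (A.filter P) fun k hk => (Finset.mem_filter.1 hk).2
  linarith

end Pool.Agent.H226.SW
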