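import Pool.Agent.H226.OF.Ineq

/-!
The triads with a very high frequency.
-/

open MeasureTheory Set Filter Topology
open scoped ENNReal
open H459R3.NS Pool.Agent.X96.HT Pool.Agent.X96.DM

namespace Pool.Agent.H226.SW

variable {η : Md → Md → Md → ℝ} {U : K3 → C3} {k p q : K3} {H : ℝ} {N : ℕ} {lam K M L : ℝ}
  {B : Finset ℕ} {a S : ℝ}

/-- the low frequencies of the field -/
noncomputable def lp (L : ℝ) (U : K3 → C3) (k : K3) : C3 := if kn k ≤ L then U k else 0

lemma lp_div (hdiv : ∀ k, dp (kc k) (U k) = 0) (k : K3) : dp (kc k) (lp L U k) = 0 := by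
  unfold lp
  split_ifs
  · exact hdiv k
  · unfold dp; simp

lemma norm_lp_le (k : K3) : ‖lp L U k‖ ≤ ‖U k‖ := by
  unfold lp
  split_ifs
  · exact le_rfl
  · rw [norm_zero]; exact norm_nonneg _

lemma lp_rap (hU : RapV U) : RapV (lp L U) := fun n =>
  Summable.of_nonneg_of_le (fun k => by have := kn_nonneg k; positivity)
    (fun k => by
      have := kn_nonneg k
      have := norm_lp_le (L := L) (U := U) k
      gcongr) (hU n)

lemma sq2_lp_le (k : K3) : sq2 (lp L U) k ≤ sq2 U k := by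
  unfold sq2 lp
  refine Finset.sum_le_sum fun i _ => ?_
  split_ifs
  · exact le_rfl
  · simp

lemma nt_lp_le (hU : RapV U) {w : K3 → ℝ} (hw : PG w) (hw0 : ∀ k, 0 ≤ w k) :
    nt w (lp L U) ≤ nt w U :=
  (hw.smq (lp_rap hU)).tsum_le_tsum (fun k => mul_le_mul_of_nonneg_left (sq2_lp_le k) (hw0 k))
    (hw.smq hU)

/-- a triad with a very high frequency does not count for the low frequencies -/
lemma Fw_lp_zero {w : K3 → ℝ} (h : L < kn p) : Fw η w (lp L U) k p q = 0 := by
  unfold Fw
  have e : lp L U p = 0 := if_neg (not_le.2 h)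
  rw [e]
  have : ∀ r s t : Bool, Gs (w k) (w p) (w q) (kc k) (kc p) (kc q) (par r k (lp L U k))
        (par s p 0) (par t q (lp L U q)) = 0 := by
    intro r s t
    rw [par_zero_vec]
    unfold Gs tau dp
    simp
  simp only [this, mul_zero, Finset.sum_const_zero]

lemma Fw_lp_zero' {w : K3 → ℝ} (h : L < kn q) : Fw η w (lp L U) k p q = 0 := by
  unfold Fw
  have e : lp L U q = 0 := if_neg (not_le.2 h)
  rw [e]
  have : ∀ r s t : Bool, Gs (w k) (w p) (w q) (kc k) (kc p) (kc q) (par r k (lp L U k))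
        (par s p (lp L U p)) (par t q 0) = 0 := by
    intro r s t
    rw [par_zero_vec]
    unfold Gs tau dp
    simp
  simp only [this, mul_zero, Finset.sum_const_zero]

lemma Fw_lp_same {w : K3 → ℝ} (h1 : kn k ≤ L) (h2 : kn p ≤ L) (h3 : kn q ≤ L) :
    Fw η w (lp L U) k p q = Fw η w U k p q := by
  unfold Fw lp
  rw [if_pos h1, if_pos h2, if_pos h3]

open Classical in
/-- The triads with a very high frequency, with the weights of the ramp. -/
theorem top_ramp (hη : IsWeight η) (hH : ∀ a b c, |η a b c| ≤ H) (hU : RapV U)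
    (hdiv : ∀ k, dp (kc k) (U k) = 0) (ha : 1 ≤ a) (hB2 : ∀ n ∈ B, n ≤ 4 * N ^ 2)
    (hL : 4 * N ≤ L) :
    ‖T3s (fw η (rb B a) U) - T3s (fw η (rb B a) (lp L U))‖ₑ
      ≤ (∑' k, ENNReal.ofReal (sh (fun k => kn k < 2 * N) U k))
        * ∑' p, ENNReal.ofReal (81 * H * lg (rb B a) (L / 2) U p) := by
  have hH0 : 0 ≤ H := (abs_nonneg _).trans (hH (0, true) (0, true) (0, true))
  have hN0 : (0 : ℝ) ≤ N := Nat.cast_nonneg N
  set V := lp L U with hV
  set f : K3 → K3 → K3 → ℂ := fun k p q => fw η (rb B a) U k p q - fw η (rb B a) V k p q with hf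
  have sU := S3s_w hH hU hdiv (rb_pg (B := B) ha)
  have sV := S3s_w hH (lp_rap (L := L) hU) (lp_div hdiv) (rb_pg (B := B) ha)
  have hfS : S3s f := Summable.sub sU sV
  have hT : T3s f = T3s (fw η (rb B a) U) - T3s (fw η (rb B a) V) := Summable.tsum_sub sU sV
  have h6 := T3s_sym hfS
  have hsym : (fun k p q => (f k p q + f k q p) + (f p q k + f p k q) + (f q k p + f q p k))
      = fun k p q => Fw η (rb B a) U k p q - Fw η (rb B a) V k p q := by
    funext k p q
    have e1 := fw_sym hη (rb B a) U k p q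
    have e2 := fw_sym hη (rb B a) V k p q
    unfold Fw
    rw [← e1, ← e2]
    simp only [hf]
    ring
  rw [hsym, hT] at h6
  set X : K3 → K3 → ℝ≥0∞ := fun k p => ENNReal.ofReal (sh (fun k => kn k < 2 * N) U k)
    * ENNReal.ofReal (81 * H * lg (rb B a) (L / 2) U p) with hX
  have hle : ∀ k p q, k + p + q = 0 → kn k ≤ kn p → kn k ≤ kn q →
      ‖Fw η (rb B a) U k p q - Fw η (rb B a) V k p q‖ₑ ≤ X k p + X k q := by
    intro k p q h hkp hkq
    have hk0 := kn_nonneg k
    have t1 : kn p ≤ kn q + kn k := kn_tri (by rw [← h]; abel)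
    have t2 : kn q ≤ kn k + kn p := kn_tri h
    by_cases h1 : kn p ≤ L ∧ kn q ≤ L
    · rw [hV, Fw_lp_same (hkp.trans h1.1) h1.1 h1.2, sub_self, enorm_zero]
      exact zero_le
    have hz : Fw η (rb B a) V k p q = 0 := by
      rw [not_and_or, not_le, not_le] at h1
      rcases h1 with h1 | h1
      · exact Fw_lp_zero h1
      · exact Fw_lp_zero' h1
    rw [hz, sub_zero]
    have h3 : L / 2 ≤ kn p ∧ L / 2 ≤ kn q := by
      rw [not_and_or, not_le, not_le] at h1
      rcases h1 with h1 | h1 <;> constructor <;> linarith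
    have wp : rb B a p = a ^ B.card := rb_two hB2 (by linarith)
    have wq : rb B a q = a ^ B.card := rb_two hB2 (by linarith)
    by_cases h2 : 2 * N ≤ kn k
    · have e : Fw η (rb B a) U k p q = 0 := by
        have wk : rb B a k = a ^ B.card := rb_two hB2 h2
        exact Fw_same h hdiv (by rw [wp, wk]) (by rw [wq, wk])
      rw [e, enorm_zero]
      exact zero_le
    push Not at h2
    have w0 := rb_ge (B := B) ha k
    have wle := rb_le (B := B) ha k
    have hM1 : (1 : ℝ) ≤ a ^ B.card := one_le_pow₀ ha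
    have hF := Fw_le (η := η) (U := U) hH (w := rb B a) h hkp hkq hdiv
      (Λ := a ^ B.card) (rb_mono ha hkp) (by rw [wp]; linarith) (rb_mono ha hkq)
      (by rw [wq]; linarith) (by rw [wp, wq, sub_self, abs_zero, zero_mul]; positivity)
    have b0 := bt_nonneg k (U k)
    have b1 := bt_nonneg p (U p)
    have b2 := bt_nonneg q (U q)
    have hfin : ‖Fw η (rb B a) U k p q‖ ≤ kn k * bt k (U k)
        * (81 * H * (rb B a p * bt p (U p) ^ 2)) + kn k * bt k (U k)
        * (81 * H * (rb B a q * bt q (U q) ^ 2)) := by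
      refine hF.trans ?_
      rw [wp, wq]
      have h5 : bt p (U p) * bt q (U q) ≤ 1 / 2 * (bt p (U p) ^ 2 + bt q (U q) ^ 2) := by
        nlinarith [sq_nonneg (bt p (U p) - bt q (U q))]
      calc 162 * H * a ^ B.card * (kn k * (bt k (U k) * bt p (U p) * bt q (U q)))
          = 162 * H * a ^ B.card * (kn k * bt k (U k)) * (bt p (U p) * bt q (U q)) := by ring
        _ ≤ 162 * H * a ^ B.card * (kn k * bt k (U k))
            * (1 / 2 * (bt p (U p) ^ 2 + bt q (U q) ^ 2)) := by gcongr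
        _ = _ := by ring
    simp only [hX]
    unfold sh lg
    rw [if_pos h2, if_pos h3.1, if_pos h3.2, ← ENNReal.ofReal_mul (by positivity),
      ← ENNReal.ofReal_mul (by positivity), ← ENNReal.ofReal_add (by rw [wp]; positivity)
      (by rw [wq]; positivity),
      ← ofReal_norm]
    exact ENNReal.ofReal_le_ofReal hfin
  have h7 := sum_triads (Φ := fun k p q => Fw η (rb B a) U k p q - Fw η (rb B a) V k p q)
    (fun k p q => by simp only [Fw_rot hη]) hle
  rw [← h6, enorm_mul] at h7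
  have e6 : ‖(6 : ℂ)‖ₑ = 6 := by
    rw [← ofReal_norm]; norm_num
  rw [e6] at h7
  have h8 : ‖T3s (fw η (rb B a) U) - T3s (fw η (rb B a) V)‖ₑ ≤ ∑' x : K3 × K3, X x.1 x.2 :=
    (ENNReal.mul_le_mul_iff_right (by norm_num) (by norm_num)).1 h7
  refine h8.trans (le_of_eq ?_)
  rw [ENNReal.tsum_prod, ← ENNReal.tsum_mul_right]
  refine tsum_congr fun k => ?_
  simp only [hX]
  rw [ENNReal.tsum_mul_left]

/-- the triads with a very high frequency are absorbed by the dissipation -/
theorem top_real (hη : IsWeight η) (hH : ∀ a b c, |η a b c| ≤ H) (hU : RapV U)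
    (hdiv : ∀ k, dp (kc k) (U k) = 0) (hN : 0 < N) (ha : 1 ≤ a)
    (hB2 : ∀ n ∈ B, n ≤ 4 * N ^ 2) (hK : 1 ≤ K) (hL : 4 * N ≤ L)
    {E : ℝ} (hE : nt (fun _ => 1) U ≤ E) :
    ‖T3s (fw η (rb B a) U) - T3s (fw η (rb B a) (lp L U))‖
      ≤ 8748 * H * (Real.sqrt (27 * (2 * N) ^ 5) * Real.sqrt E) / L ^ 2 * Zd B a K U := by
  classical
  have hH0 : 0 ≤ H := (abs_nonneg _).trans (hH (0, true) (0, true) (0, true))
  have hN' : (1 : ℝ) ≤ N := by exact_mod_cast hN
  have hL0 : 0 < L := by linarith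
  have hZ : 0 ≤ Zd B a K U := Zd_nonneg ha
  refine norm_le_of_enorm (by positivity) ((top_ramp hη hH hU hdiv ha hB2 hL).trans ?_)
  have h1 : ∑' k, ENNReal.ofReal (sh (fun k => kn k < 2 * N) U k)
      ≤ ENNReal.ofReal (3 * (Real.sqrt (27 * (2 * N) ^ 5) * Real.sqrt E)) := by
    refine sh_tsum_le fun A hA => ?_
    have h2 := sum_kn_le (U := U) (w := fun _ => 1) (fun _ => one_pos)
      ((PG.of_le (w := fun _ => 1) (C := 1) fun k => by simp).smq hU) hE (P := 2 * N)
      (by linarith) (X := (2 * N) ^ 2) (by positivity) A fun k hk => ⟨(hA k hk).le, by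
        have := kn_nonneg k
        have := (hA k hk).le
        rw [mul_one]
        gcongr⟩
    have e : 27 * (2 * (N : ℝ)) ^ 3 * (2 * N) ^ 2 = 27 * (2 * N) ^ 5 := by ring
    rwa [e] at h2
  have hsm := ((Wk_pg (B := B) ha hK).mul_kn 2).smq hU
  have h2 : ∑' p, ENNReal.ofReal (81 * H * lg (rb B a) (L / 2) U p)
      ≤ ENNReal.ofReal (81 * H * (36 / L ^ 2) * Zd B a K U) := by
    unfold Zd nt
    rw [← tsum_mul_left, ENNReal.ofReal_tsum_of_nonneg (fun k => by
      have := zero_le_one.trans (Wk_ge (B := B) (K := K) ha k)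
      have := sq2_nonneg U k
      positivity) (hsm.mul_left _)]
    refine ENNReal.tsum_le_tsum fun p => ENNReal.ofReal_le_ofReal ?_
    have h3 := lg_le (fun k => zero_le_one.trans (rb_ge (B := B) ha k)) (L / 2) U p
    have h4 := zero_le_one.trans (rb_ge (B := B) ha p)
    have h5 := sq2_nonneg U p
    have h6 := zero_le_one.trans (Wk_ge (B := B) (K := K) ha p)
    have h7 := rb_le_Wk (B := B) (K := K) ha p
    split_ifs at h3 with h8
    · have h9 : 1 ≤ 4 / L ^ 2 * kn p ^ 2 := by
        rw [div_mul_eq_mul_div, le_div_iff₀ (by positivity)]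
        nlinarith
      calc 81 * H * lg (rb B a) (L / 2) U p
          ≤ 81 * H * (9 * (rb B a p * sq2 U p)) := by gcongr
        _ ≤ 81 * H * (9 * (Wk B a K p * sq2 U p)) * (4 / L ^ 2 * kn p ^ 2) := by
            refine le_trans (b := 81 * H * (9 * (Wk B a K p * sq2 U p))) (by gcongr) ?_
            exact le_mul_of_one_le_right (by positivity) h9
        _ = _ := by ring
    · calc 81 * H * lg (rb B a) (L / 2) U p ≤ 81 * H * 0 := by gcongr
        _ = 0 := by ring
        _ ≤ _ := by positivity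
  refine (mul_le_mul' h1 h2).trans (le_of_eq ?_)
  rw [← ENNReal.ofReal_mul (by positivity)]
  congr 1
  ring

end Pool.Agent.H226.SW
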